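import Pool.Agent.W_448rc_h10.RcI
import Pool.Agent.W_448cl_h64.ClL
import Pool.Agent.W_448pn_h63.QcA

/-!
MP_448cb3_co, G2, case B, window `j - 1`: the rows with three sites and the pattern [DL], a closed end.
Basic facts on the pendants of the part.
-/

set_option autoImplicit false

namespace Pool.Agent.GaussPoset.Wd

set_option linter.unusedSectionVars false

open Finset Win Win.I2 Win.Rc EK Win.Pn
open Pool.Agent.GaussPoset.Win.SO (F5 mem_F5 N1f N5f CQ envc)

universe u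

variable {P : Type u} [Fintype P] [PartialOrder P] [DecidableEq P] {r j i : ℕ}
  {t : Tops P} {lo hi : ℕ → ℕ} {e : ℕ → ℕ → P} {m : ℕ} {x : ℕ → P} {c : ℕ → ℤ} {β : ℤ}
  {S : Finset P} {p q w : P}

/-- no pendant below an element with two children which are doubles -/
lemma Dt_pen_empty (H : Gr P r) {w y y' : P} (hy : y ⋖ w) (hy' : y' ⋖ w) (hne : y ≠ y')
    (h1 : (uc y).card = 2) (h2 : (uc y').card = 2) : pen w = ∅ := by
  rw [eq_empty_iff_forall_notMem]
  intro z hz
  obtain ⟨hz1, hz2⟩ := Win.mem_pen.1 hz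
  refine Win.dc_three H hy hy' hz1 hne ?_ ?_
  · rintro rfl
    omega
  · rintro rfl
    omega

section row

variable (h : NJ P r j) (hij : i + 1 = j) (hi1 : 1 ≤ i) (B : RowB P j t m x c β)
include h hij hi1 B

lemma NJ.dt_x_mem {k : ℕ} (hk : k ≤ m) : x k ∈ SS i t := by
  have l := B.row.lev_x k hk
  rw [h.mem (by omega) t (by omega), ← B.row.kap k hk]
  exact le_topOf (x k)

/-- the elements of the level `j` of the part -/
lemma NJ.dt_x_of {w : P} (hl : lev w = j) (hw : w ∈ SS i t) : ∃ k, k ≤ m ∧ x k = w := by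
  refine B.row.surj w hl ?_
  rw [h.mem (by omega) t (by omega)] at hw
  exact Subtype.ext (Hul.top_unique (h.nj (by omega)) (topOf w).2 t.2 (le_topOf w) hw)

/-- a lower pendant of the part is below a double element of the row -/
lemma NJ.dt_pd_row {p : P} (hp : p ∈ PD P i) (hpt : (topOf p : Tops P) = t) :
    ∃ k, k ≤ m ∧ uc p = {x k} ∧ (uc (x k)).card = 2 ∧ p ∈ pen (x k) := by
  obtain ⟨h1, h2, w, h3, h4⟩ := mem_PD.1 hp
  obtain ⟨a, ha⟩ := card_eq_one.1 h2
  have h5 : w = a := by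
    have := mem_uc.2 h3
    rwa [ha, mem_singleton] at this
  subst h5
  have lw := lev_cov h.g.H h3
  have h6 : topOf p = (topOf w : Tops P) := h.split h3 (by omega)
  obtain ⟨k, hk, rfl⟩ := B.row.surj w (by omega) (by rw [← h6, hpt])
  exact ⟨k, hk, ha, h4, Win.mem_pen.2 ⟨h3, h2⟩⟩

end row

section dl

variable (h : NJ P r j) (hij : i + 1 = j) (hi1 : 1 ≤ i) (B : RowB P j t 2 x c β)
  (c0 : c 0 = 1) (c1 : c 1 = -1)
include h hij hi1 B c0

/-- no pendants below the doubled pair -/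
lemma NJ.dl_pen : pen (x 0) = ∅ ∧ pen (x 1) = ∅ := by
  classical
  have H := h.g.H
  have h2 := B.dcv_x H (k := 0) (l := 1) (by omega) (by omega)
  rw [if_pos rfl, c0] at h2
  have h3 : 1 < dcv (x 0) (x 1) := by
    have : (1 : ℤ) < (dcv (x 0) (x 1) : ℤ) := by rw [h2]; norm_num
    exact_mod_cast this
  unfold dcv at h3
  obtain ⟨y, hy, y', hy', hne⟩ := one_lt_card.1 h3
  rw [mem_filter] at hy hy'
  have n01 : x 0 ≠ x 1 := fun q => by
    have := B.row.inj 0 1 (by omega) (by omega) q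
    omega
  have two : ∀ y : P, y ⋖ x 0 → y ⋖ x 1 → (uc y).card = 2 := by
    intro y h1 h2
    have h3 : ({x 0, x 1} : Finset P) ⊆ uc y := by
      intro v hv
      rw [mem_insert, mem_singleton] at hv
      rcases hv with rfl | rfl
      · exact mem_uc.2 h1
      · exact mem_uc.2 h2
    have h4 := card_le_card h3
    rw [card_pair n01] at h4
    have := uc_card_le H y
    omega
  exact ⟨Dt_pen_empty H hy.2.1 hy'.2.1 hne (two y hy.2.1 hy.2.2) (two y' hy'.2.1 hy'.2.2),
    Dt_pen_empty H hy.2.2 hy'.2.2 hne (two y hy.2.1 hy.2.2) (two y' hy'.2.1 hy'.2.2)⟩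

/-- a lower pendant of the part is below `x 2` -/
lemma NJ.dl_pd {p : P} (hp : p ∈ PD P i) (hpt : (topOf p : Tops P) = t) :
    uc p = {x 2} ∧ (uc (x 2)).card = 2 := by
  obtain ⟨k, hk, h1, h2, h3⟩ := h.dt_pd_row hij hi1 B hp hpt
  obtain ⟨e0, e1⟩ := h.dl_pen hij hi1 B c0
  have h4 : k = 0 ∨ k = 1 ∨ k = 2 := by omega
  rcases h4 with rfl | rfl | rfl
  · rw [e0] at h3
    exact absurd h3 (notMem_empty _)
  · rw [e1] at h3
    exact absurd h3 (notMem_empty _)
  · exact ⟨h1, h2⟩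

/-- the sum of the shares -/
lemma NJ.dl_sum (f : P → ℤ) :
    (((∀ p ∈ PD P i, (topOf p : Tops P) ≠ t) ∧
      ∑ p ∈ (PD P i).filter (fun p => (topOf p : Tops P) = t), f p = 0)) ∨
    ∃ p, p ∈ PD P i ∧ (topOf p : Tops P) = t ∧ uc p = {x 2} ∧ (uc (x 2)).card = 2 ∧
      ∑ p ∈ (PD P i).filter (fun p => (topOf p : Tops P) = t), f p = f p := by
  classical
  by_cases hc : ∃ p, p ∈ PD P i ∧ (topOf p : Tops P) = t
  · right
    obtain ⟨p, hp, hpt⟩ := hc
    obtain ⟨h1, h2⟩ := h.dl_pd hij hi1 B c0 hp hpt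
    refine ⟨p, hp, hpt, h1, h2, ?_⟩
    have h3 : (PD P i).filter (fun p => (topOf p : Tops P) = t) = {p} := by
      ext q
      rw [mem_filter, mem_singleton]
      constructor
      · rintro ⟨h3, h4⟩
        exact Pn.nj_hone h hij hi1 q h3 p hp (h4.trans hpt.symm)
      · rintro rfl
        exact ⟨hp, hpt⟩
    rw [h3, sum_singleton]
  · left
    have h3 : ∀ p ∈ PD P i, (topOf p : Tops P) ≠ t := fun p hp hpt => hc ⟨p, hp, hpt⟩
    refine ⟨h3, ?_⟩
    have h4 : (PD P i).filter (fun p => (topOf p : Tops P) = t) = ∅ :=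
      filter_eq_empty_iff.2 (fun p hp => h3 p hp)
    rw [h4, Finset.sum_empty]

end dl

section mat

variable (h : NJ P r j) (hij : i + 1 = j) (hi1 : 1 ≤ i)
include h hij hi1

/-- no pendants below: no pendants at all -/
lemma NJ.dt_no_pn (t : Tops P) (h0 : ∀ p ∈ PD P i, (topOf p : Tops P) ≠ t) :
    F5 i (SS i t) = ∅ ∧ FL i (SS i t) = ∅ ∧ FU' i (SS i t) = ∅ := by
  classical
  have hD : ∀ z ∈ SS i t, z ∉ PD P i := by
    intro z hz hzD
    refine h0 z hzD ?_
    have l := (mem_PD.1 hzD).1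
    rw [h.mem (by omega) t (by omega)] at hz
    exact Subtype.ext (Hul.top_unique (h.nj (by omega)) (topOf z).2 t.2 (le_topOf z) hz)
  have hF : F5 i (SS i t) = ∅ := by
    rw [eq_empty_iff_forall_notMem]
    intro q hq
    obtain ⟨a1, a2, -⟩ := mem_F5.1 hq
    exact hD _ a1 a2
  have hU : ∀ z ∈ SS i t, z ∉ PU P i := by
    obtain ⟨psi, hM⟩ := good_mat h.g.H (h.g.good i (by omega))
    rcases (Pn.nj_mtc h hij hi1 hM t hF).out with hN | ⟨z, x, y, u, hzC, hxC, hzP, -⟩
    · exact fun z hz => (hN z hz).2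
    · exact absurd hzP (hD z hzC)
  have hP := Pn.nj_part h hij t
  refine ⟨hF, ?_, ?_⟩
  · rw [eq_empty_iff_forall_notMem]
    intro w hw
    obtain ⟨h1, z, h2, h3⟩ := mem_FL.1 hw
    exact hD z (hP.up h1 (mem_uc.1 (by rw [h3]; simp))) h2
  · rw [eq_empty_iff_forall_notMem]
    intro w hw
    obtain ⟨h1, z, h2, h3⟩ := mem_FU'.1 hw
    have l := lev_FU h.g.H hw
    have hz : z ⋖ w := mem_dc.1 (by rw [h3]; simp)
    have lz := lev_cov h.g.H hz
    refine hU z ?_ h2
    rw [h.mem (by omega) t (by omega)] at h1 ⊢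
    exact hz.le.trans h1

/-- the matched pendants of a part without flips -/
lemma NJ.dt_mat_pn (t : Tops P) (hF : F5 i (SS i t) = ∅) (hp : p ∈ PD P i)
    (hpt : (topOf p : Tops P) = t) {y : P} (hy : uc p = {y}) :
    ∃ q u, q ∈ SS i t ∧ q ∈ PU P i ∧ dc q = {u} ∧ dc u = uc y ∧
      (∀ z, z ∈ FL i (SS i t) ∨ z ∈ FU' i (SS i t) → sit i z = uc y) ∧
      FL i (SS i t) = FLo (SS i t) p ∧ FU' i (SS i t) ⊆ uc q := by
  classical
  have H := h.g.H
  obtain ⟨psi, hM⟩ := good_mat h.g.H (h.g.good i (by omega))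
  have hpC : p ∈ SS i t := by
    have := Pn.nj_mem h hij hi1 (mem_PD.1 hp).1
    rwa [hpt] at this
  have hP := Pn.nj_part h hij t
  rcases (Pn.nj_mtc h hij hi1 hM t hF).out with hN | ⟨z, q, y', u, hzC, hqC, hzP, hqP, hz, hq,
    huy, h2, hz1, hq1, -⟩
  · exact absurd hp (hN p hpC).1
  · have e1 := hz1 p hpC hp
    subst e1
    have e2 : y' = y := by
      rw [hz] at hy
      exact singleton_injective hy
    subst e2
    refine ⟨q, u, hqC, hqP, hq, huy, ?_, ?_, ?_⟩
    · intro w hw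
      rcases hw with hw | hw
      · obtain ⟨h3, z, h4, h5⟩ := mem_FL.1 hw
        have h6 := hz1 z (hP.up h3 (mem_uc.1 (by rw [h5]; simp))) h4
        subst h6
        rw [sit_FL H h4 h5, ← Pn.sit_PDs H h4 hz, sit_low H (by rw [(mem_PD.1 h4).1]; omega)]
      · obtain ⟨h3, z, h4, h5⟩ := mem_FU'.1 hw
        have l := lev_FU H hw
        have hzw : z ⋖ w := mem_dc.1 (by rw [h5]; simp)
        have lz := lev_cov H hzw
        have hzC : z ∈ SS i t := by
          rw [h.mem (by omega) t (by omega)] at h3 ⊢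
          exact hzw.le.trans h3
        have h6 := hq1 z hzC h4
        subst h6
        rw [sit_FU H h4 h5, ← huy, ← Pn.sit_PUs H h4 hq, sit_upp H (by omega)]
    · ext w
      rw [mem_FL, mem_FLo]
      constructor
      · rintro ⟨h3, z, h4, h5⟩
        have h6 := hz1 z (hP.up h3 (mem_uc.1 (by rw [h5]; simp))) h4
        subst h6
        exact ⟨h3, h5⟩
      · rintro ⟨h3, h4⟩
        exact ⟨h3, p, hp, h4⟩
    · intro w hw
      obtain ⟨h3, z, h4, h5⟩ := mem_FU'.1 hw
      have l := lev_FU H hw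
      have hzw : z ⋖ w := mem_dc.1 (by rw [h5]; simp)
      have lz := lev_cov H hzw
      have hzC : z ∈ SS i t := by
        rw [h.mem (by omega) t (by omega)] at h3 ⊢
        exact hzw.le.trans h3
      have h6 := hq1 z hzC h4
      subst h6
      exact mem_uc.2 hzw

/-- the numbers of the children -/
lemma NJ.dt_ch_bd (hp : p ∈ PD P i) :
    0 ≤ zc i (topOf : P → Tops P) p ∧ 0 ≤ kc p ∧ zc i (topOf : P → Tops P) p + kc p ≤ 2 ∧
      0 ≤ ∑ z ∈ zs i (topOf : P → Tops P) p, kc z ∧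
      ∑ z ∈ zs i (topOf : P → Tops P) p, kc z ≤ 2 * zc i (topOf : P → Tops P) p := by
  classical
  have h1 := Pf.nj_zc_kc h hij hi1 (mem_PD.1 hp).1
  refine ⟨?_, ?_, h1, ?_, ?_⟩
  · unfold zc
    positivity
  · unfold kc
    positivity
  · refine sum_nonneg fun z _ => ?_
    unfold kc
    positivity
  · have h2 : ∀ z ∈ zs i (topOf : P → Tops P) p, kc z ≤ 2 := by
      intro z _
      have h3 : ks z ⊆ dc z := by
        intro y hy
        rw [mem_ks] at hy
        rw [mem_dc, ← mem_uc, hy]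
        exact mem_singleton_self z
      have h4 := card_le_card h3
      have h5 := dc_card_le h.g.H z
      unfold kc
      exact_mod_cast h4.trans h5
    have h3 := sum_le_sum h2
    rw [sum_const, nsmul_eq_mul] at h3
    unfold zc
    linarith

/-- the private children of a pendant -/
lemma NJ.dt_fl_kc (hp : p ∈ PD P i) (hpt : (topOf p : Tops P) = t)
    (hFL : FL i (SS i t) = FLo (SS i t) p) : ((FL i (SS i t)).card : ℤ) = kc p := by
  have hpC : p ∈ SS i t := by
    have := Pn.nj_mem h hij hi1 (mem_PD.1 hp).1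
    rwa [hpt] at this
  rw [hFL, Pf.nj_kc h hij hi1 t hpC (mem_PD.1 hp).1]

end mat

end Pool.Agent.GaussPoset.Wd
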