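import Pool.Agent.W_448ft_h93.DtA

/-!
MP_448cb3_co, G2, case B, window `j - 1`: the rows with three sites and the pattern [DL], a closed end.
The near elements which meet the sites of the pendant; the edges; the balance.
-/

set_option autoImplicit false

namespace Pool.Agent.GaussPoset.Wd

set_option linter.unusedSectionVars false

open Finset Win Win.I2 Win.Rc EK Win.Pn
open Pool.Agent.GaussPoset.Win.SO (F5 mem_F5 N1f N5f CQ envc)

universe u

variable {P : Type u} [Fintype P] [PartialOrder P] [DecidableEq P] {r j i : ℕ}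
  {t : Tops P} {lo hi : ℕ → ℕ} {e : ℕ → ℕ → P} {m : ℕ} {x : ℕ → P} {c : ℕ → ℤ} {β : ℤ}
  {S : Finset P} {p q w : P}

/-- at most two upper near elements meet the sites of an upper pendant -/
lemma Dt_up (H : Gr P r) (C : Cp.Comp j (t : P) lo hi e) (hj : i ≤ j) {q u : P}
    (hq : q ≤ (t : P)) (lq : lev q + 2 = i) (hqu : dc q = {u}) :
    ∃ u', ∀ w, w ≤ (t : P) → lev w + 1 = i → (∃ s, s ≤ (t : P) ∧ s ⋖ w ∧ s ⋖ u) →
      w = u ∨ w = u' := by
  obtain ⟨k, rfl⟩ : ∃ k, i = k + 2 := ⟨i - 2, by omega⟩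
  have lqk : lev q = k := by omega
  obtain ⟨d, d1, d2, d3⟩ := C.surj q hq (by omega)
  rw [lqk] at d1 d2 d3
  subst d3
  have hu : u ⋖ e k d := by
    rw [← mem_dc, hqu]
    exact mem_singleton_self u
  have lu := lev_cov H hu
  have lu' : lev u = k + 1 := by
    have := C.lev_e k d (by omega) d1 d2
    omega
  have hut : u ≤ (t : P) := hu.le.trans (C.le_t k d (by omega) d1 d2)
  obtain ⟨c', c1, c2, c3⟩ := C.surj u hut (by omega)
  rw [lu'] at c1 c2 c3
  subst c3
  have hcd := (C.cov k c' d (by omega) c1 c2 d1 d2).1 hu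
  -- the other lower cover is missing
  have hmiss : ∀ a, lo (k + 1) ≤ a → a ≤ hi (k + 1) → d = a ∨ d + 1 = a → a = c' := by
    intro a a1 a2 ha
    have h1 : e (k + 1) a ∈ dc (e k d) := mem_dc.2 ((C.cov k a d (by omega) a1 a2 d1 d2).2 ha)
    rw [hqu, mem_singleton] at h1
    exact C.inj (k + 1) a c' (by omega) a1 a2 c1 c2 h1
  have key : ∀ w, w ≤ (t : P) → lev w + 1 = k + 2 →
      (∃ s, s ≤ (t : P) ∧ s ⋖ w ∧ s ⋖ e (k + 1) c') →
      ∃ b, lo (k + 1) ≤ b ∧ b ≤ hi (k + 1) ∧ w = e (k + 1) b ∧ (b = c' ∨ b + 1 = c' ∨ b = c' + 1) := by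
    rintro w hw lw ⟨s, hs, h1, h2⟩
    have lw' : lev w = k + 1 := by omega
    have ls := lev_cov H h1
    have ls' : lev s = k + 2 := by omega
    obtain ⟨b, b1, b2, b3⟩ := C.surj w hw (by omega)
    rw [lw'] at b1 b2 b3
    subst b3
    obtain ⟨a, a1, a2, a3⟩ := C.surj s hs (by omega)
    rw [ls'] at a1 a2 a3
    subst a3
    have h3 := (C.cov (k + 1) a b (by omega) a1 a2 b1 b2).1 h1
    have h4 := (C.cov (k + 1) a c' (by omega) a1 a2 c1 c2).1 h2
    exact ⟨b, b1, b2, rfl, by omega⟩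
  rcases hcd with h1 | h1
  · refine ⟨e (k + 1) (c' - 1), fun w hw lw hs => ?_⟩
    obtain ⟨b, b1, b2, rfl, hb⟩ := key w hw lw hs
    rcases hb with rfl | hb | hb
    · exact Or.inl rfl
    · right
      rw [show c' - 1 = b by omega]
    · exfalso
      have := hmiss b b1 b2 (by omega)
      omega
  · refine ⟨e (k + 1) (c' + 1), fun w hw lw hs => ?_⟩
    obtain ⟨b, b1, b2, rfl, hb⟩ := key w hw lw hs
    rcases hb with rfl | hb | hb
    · exact Or.inl rfl
    · exfalso
      have := hmiss b b1 b2 (by omega)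
      omega
    · right
      rw [hb]

section dl

variable (h : NJ P r j) (hij : i + 1 = j) (hi1 : 1 ≤ i) (B : RowB P j t 2 x c β)
include h hij hi1 B

/-- the sites of `x 0` and `x 2` are disjoint -/
lemma NJ.dl_dis {s : P} (h0 : s ∈ uc (x 0)) (h2 : s ∈ uc (x 2)) : False := by
  have h3 := B.ucv_x 0 2 (by omega) le_rfl
  rw [if_neg (by omega)] at h3
  have h4 := StA_ucv_pos (mem_uc.1 h0) (mem_uc.1 h2)
  omega

/-- at most four near elements meet the sites of a matched pendant -/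
lemma NJ.dl_nn {u : P} (hp : p ∈ PD P i) (hup : uc p = {x 2}) (hq : q ∈ SS i t)
    (hqU : q ∈ PU P i) (hdq : dc q = {u}) (hdu : dc u = uc (x 2)) : nn i p ≤ 4 := by
  classical
  have H := h.g.H
  obtain ⟨lo, hi, e, C⟩ := Cp.comp_exists H t.2 h.g.hr h.g.good
  have l2 := B.row.lev_x 2 le_rfl
  have hx2 := h.dt_x_mem hij hi1 B (k := 2) le_rfl
  have hsit : sit i p = uc (x 2) := Pn.sit_PDs H hp hup
  have lq := (mem_PU.1 hqU).1
  have hsite : ∀ s ∈ uc (x 2), s ≤ (t : P) ∧ lev s = i ∧ s ∈ SS i t := by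
    intro s hs
    have ls := lev_uc H hs
    have h1 : s ∈ SS i t := (Pn.nj_part h hij t).up hx2 (mem_uc.1 hs)
    exact ⟨(h.mem (by omega) t (by omega)).1 h1, by omega, h1⟩
  -- lower near elements
  have hL : nLp i p ⊆ {x 1, x 2} := by
    intro w hw
    obtain ⟨lw, hd⟩ := mem_nLp.1 hw
    rw [hsit, not_disjoint_iff] at hd
    obtain ⟨s, s1, s2⟩ := hd
    obtain ⟨g1, g2, g3⟩ := hsite s s2
    have hwC : w ∈ SS i t := by
      refine (h.part (i := i) (k := i + 2) (by omega) (by omega) t).dn g3 (by omega) (mem_uc.1 s1)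
    obtain ⟨k, hk, rfl⟩ := h.dt_x_of hij hi1 B (by omega) hwC
    have h4 : k = 0 ∨ k = 1 ∨ k = 2 := by omega
    rcases h4 with rfl | rfl | rfl
    · exact absurd (h.dl_dis hij hi1 B s1 s2) id
    · simp
    · simp
  -- upper near elements
  obtain ⟨u', hu'⟩ := Dt_up H C (i := i) (by omega)
    ((h.mem (by omega) t (by omega)).1 hq) lq hdq
  have hU : nUp i p ⊆ {u, u'} := by
    intro w hw
    obtain ⟨lw, hd⟩ := mem_nUp.1 hw
    rw [hsit, not_disjoint_iff] at hd
    obtain ⟨s, s1, s2⟩ := hd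
    obtain ⟨g1, g2, g3⟩ := hsite s s2
    have hwC : w ∈ SS i t := (Pn.nj_part h hij t).up g3 (mem_dc.1 s1)
    have hwt := (h.mem (by omega) t (by omega)).1 hwC
    have h5 := hu' w hwt lw ⟨s, g1, mem_dc.1 s1, mem_dc.1 (by rw [hdu]; exact s2)⟩
    rw [mem_insert, mem_singleton]
    exact h5
  have c1 := (card_le_card hL).trans card_le_two
  have c2 := (card_le_card hU).trans card_le_two
  unfold nn
  have c1' : ((nLp i p).card : ℤ) ≤ 2 := by exact_mod_cast c1
  have c2' : ((nUp i p).card : ℤ) ≤ 2 := by exact_mod_cast c2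
  linarith

/-- the edges -/
lemma NJ.dl_Ed (a1 : (uc (x 1)).card = 2) : Ed x 2 =
    (if (uc (x 0)).card = 2 then {0} else ∅) ∪ (if (uc (x 2)).card = 2 then {1} else ∅) := by
  ext k
  rw [mem_Ed, mem_union]
  constructor
  · rintro ⟨h1, h2, h3⟩
    have h4 : k = 0 ∨ k = 1 := by omega
    rcases h4 with rfl | rfl
    · left
      rw [if_pos h2]
      simp
    · right
      rw [if_pos h3]
      simp
  · rintro (h1 | h1)
    · by_cases h2 : (uc (x 0)).card = 2
      · rw [if_pos h2, mem_singleton] at h1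
        subst h1
        exact ⟨by omega, h2, a1⟩
      · rw [if_neg h2] at h1
        exact absurd h1 (notMem_empty _)
    · by_cases h2 : (uc (x 2)).card = 2
      · rw [if_pos h2, mem_singleton] at h1
        subst h1
        exact ⟨by omega, a1, h2⟩
      · rw [if_neg h2] at h1
        exact absurd h1 (notMem_empty _)

/-- the balance of the three-site elements -/
lemma NJ.dl_bal : ((ZU i (SS i t)).card : ℤ) - ((ZL i (SS i t)).card : ℤ) =
    -∑ l ∈ Ed x 2, c l := by
  classical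
  have h1 := h.bal_test hij hi1 B (fun _ => True)
  simp only [filter_true] at h1
  rw [← h1]
  ring

/-- the number of the twins -/
lemma NJ.dl_tws : ((Tws i (SS i t)).card : ℤ) = ((Et x 2 c).card : ℤ) := by
  classical
  have h1 := h.tws_test hij hi1 B (fun _ => True)
  simp only [filter_true] at h1
  exact h1

end dl

end Pool.Agent.GaussPoset.Wd
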