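import Pool.Agent.W_448ft_h93.DtB

/-!
MP_448cb3_co, G2, case B, window `j - 1`: the rows with three sites and the pattern [DL], a closed end.
The values of the functional of helper16, no flip.
-/

set_option autoImplicit false

namespace Pool.Agent.GaussPoset.Wd

set_option linter.unusedSectionVars false

open Finset Win Win.I2 Win.Rc EK Win.Pn
open Pool.Agent.GaussPoset.Win.SO (F5 mem_F5 N1f N5f CQ envc)

universe u

variable {P : Type u} [Fintype P] [PartialOrder P] [DecidableEq P] {r j i : ℕ}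
  {t : Tops P} {lo hi : ℕ → ℕ} {e : ℕ → ℕ → P} {m : ℕ} {x : ℕ → P} {c : ℕ → ℤ} {β : ℤ}
  {S : Finset P} {p q w : P}

/-- the weights of the functional -/
noncomputable def W93 : Wt := ⟨-1, 9, 1, 4, 3, -1, 2, 13, 0⟩

lemma Dt_arith4 {z k f s n : ℤ} (z0 : 0 ≤ z) (k0 : 0 ≤ k) (f0 : 0 ≤ f) (f2 : f ≤ 2)
    (zk : z + k ≤ 2) (hs : s ≤ 2 * z) (hn : n ≤ 4) :
    -12 ≤ 2 * ((k - f) ^ 2 - 5 * (k - f) + 2) + (12 * z - 4 * z * (k + n - 3) - 2 * s +
      8 * z * (k - f) - 12 * z + 2 * (z * (z - 1))) := by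
  have z2 : z ≤ 2 := by linarith
  have k2 : k ≤ 2 := by linarith
  interval_cases z <;> interval_cases k <;> interval_cases f <;> linarith

lemma Dt_arith3 {z k f s n : ℤ} (z0 : 0 ≤ z) (k0 : 0 ≤ k) (f0 : 0 ≤ f) (f2 : f ≤ 2)
    (zk : z + k ≤ 2) (hs : s ≤ 2 * z) (hn : n ≤ 4) :
    0 ≤ 2 * ((1 + (k - f)) ^ 2 - (1 + (k - f))) + (12 * z - 4 * z * (k + n - 3) - 2 * s +
      8 * z * (1 + (k - f)) + 2 * (z * (z - 1))) := by
  have z2 : z ≤ 2 := by linarith
  have k2 : k ≤ 2 := by linarith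
  interval_cases z <;> interval_cases k <;> interval_cases f <;> linarith

lemma Dt_arithF {z k f s : ℤ} (z0 : 0 ≤ z) (k0 : 0 ≤ k) (f0 : 0 ≤ f) (f2 : f ≤ 2)
    (zk : z + k ≤ 2) (hs : s ≤ 2 * z) :
    -4 ≤ 2 * ((k - f) ^ 2 - 5 * (k - f) + 2 * (k + f)) + (12 * z - 4 * z * (k + 1) - 2 * s +
      8 * z * (1 + (k - f)) - 12 * z + 2 * (z * (z - 1))) := by
  have z2 : z ≤ 2 := by linarith
  have k2 : k ≤ 2 := by linarith
  interval_cases z <;> interval_cases k <;> interval_cases f <;> linarith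

lemma Dt_sq (a : ℤ) : 4 ≤ 2 * (a ^ 2 - a + 2) := by
  have : 0 ≤ a ^ 2 - a := by
    rcases le_or_gt a 0 with h | h
    · nlinarith
    · nlinarith
  linarith

section dl

variable (h : NJ P r j) (hij : i + 1 = j) (hi1 : 1 ≤ i) (B : RowB P j t 2 x c β)
  (c0 : c 0 = 1) (c1 : c 1 = -1)
include h hij hi1 B

lemma NJ.dl_mid : (uc (x 1)).card = 2 := (h.inner hij hi1 B).1 1 (by omega) (by omega)

lemma NJ.dl_st : (st i (SS i t)).card = 2 + ((uc (x 0)).card - 1) + ((uc (x 2)).card - 1) :=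
  (h.inner hij hi1 B).2.1 (by omega)

include c0 c1

/-- the twins of the closed rows -/
lemma NJ.dl_Et (a0 : (uc (x 0)).card = 2) : Et x 2 c = {0} := by
  ext k
  rw [mem_Et, h.dl_Ed hij hi1 B (h.dl_mid hij hi1 B), if_pos a0, mem_singleton]
  constructor
  · rintro ⟨h1, h2⟩
    rw [mem_union, mem_singleton] at h1
    rcases h1 with h1 | h1
    · exact h1
    · exfalso
      by_cases h3 : (uc (x 2)).card = 2
      · rw [if_pos h3, mem_singleton] at h1
        rw [h1, c1] at h2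
        norm_num at h2
      · rw [if_neg h3] at h1
        exact notMem_empty _ h1
  · rintro rfl
    exact ⟨by simp, c0⟩

lemma NJ.dl_Et' (a0 : (uc (x 0)).card ≠ 2) : Et x 2 c = ∅ := by
  rw [eq_empty_iff_forall_notMem]
  intro k hk
  rw [mem_Et, h.dl_Ed hij hi1 B (h.dl_mid hij hi1 B), if_neg a0, empty_union] at hk
  obtain ⟨h1, h2⟩ := hk
  by_cases h3 : (uc (x 2)).card = 2
  · rw [if_pos h3, mem_singleton] at h1
    rw [h1, c1] at h2
    norm_num at h2
  · rw [if_neg h3] at h1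
    exact notMem_empty _ h1

/-- BOTH ENDS CLOSED -/
theorem NJ.dl_four (a0 : (uc (x 0)).card = 2) (a2 : (uc (x 2)).card = 2) :
    -12 ≤ 2 * own1 W93 i t +
      ∑ p ∈ (PD P i).filter (fun p => (topOf p : Tops P) = t), shr W93 i p := by
  classical
  have H := h.g.H
  have a1 := h.dl_mid hij hi1 B
  have hst := h.dl_st hij hi1 B
  rw [a0, a2] at hst
  have h4 : 4 ≤ (st i (SS i t)).card := by omega
  have hc : ∀ k, 2 ≤ k → k < 2 → c k = 0 := fun k h1 h2 => absurd h1 (by omega)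
  have hF : F5 i (SS i t) = ∅ := Pn.nj_F5_three h hij hi1 t (by omega)
  -- the closed pair
  have hbe := (h.vals_closed hij hi1 B le_rfl h4 c0 c1 hc a0).al.2
  have hCQ : (CQ i (SS i t)).card = 1 := by
    have h1 := Pn.nj_be5_CQ h hij hi1 t hF
    rw [hbe] at h1
    have : ((CQ i (SS i t)).card : ℤ) = 1 := by linarith
    exact_mod_cast this
  have hcq : 4 ≤ cqs i (SS i t) := by
    unfold cqs
    have h1 : ∀ w ∈ CQ i (SS i t), (4 : ℤ) ≤ envc i (SS i t) w := by
      intro w hw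
      have := Pn.nj_env_ge h hij hi1 t h4 hw
      have h2 : (0 : ℤ) ≤ ((Win.SO.chc i (SS i t) w).card : ℤ) := by positivity
      linarith
    have h2 := sum_le_sum h1
    rw [sum_const, hCQ, one_smul] at h2
    exact h2
  have hn5 : n5 i (SS i t) = 0 := by
    unfold n5
    rw [W1.n5f_small h hij hi1 t (by omega), card_empty]
    rfl
  have hn1 : 0 ≤ n1 i (SS i t) := by
    unfold n1
    positivity
  have hE : (0 : ℤ) ≤ ((Rd.ETs i (SS i t)).card : ℤ) := by positivity
  rcases h.dl_sum hij hi1 B c0 (fun p => shr W93 i p) with ⟨hno, hsum⟩ |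
    ⟨p, hp, hpt, hup, -, hsum⟩
  · rw [hsum]
    obtain ⟨-, f1, f2⟩ := h.dt_no_pn hij hi1 t hno
    have e1 := h.own1_closed hij hi1 B W93 le_rfl h4 c0 c1 hc a0 (q := 2) le_rfl (by
      rintro z (hz | hz)
      · rw [f1] at hz
        exact absurd hz (notMem_empty _)
      · rw [f2] at hz
        exact absurd hz (notMem_empty _))
    have hfa : fa i (SS i t) = 0 := by
      unfold fa
      rw [f1, f2, card_empty]
      norm_num
    have hfm : fm i (SS i t) x 0 = 0 := by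
      unfold fm
      rw [f1, f2, filter_empty, card_empty]
      norm_num
    rw [hfa, hfm, hn5, if_neg (by norm_num)] at e1
    unfold W93 at e1 ⊢
    dsimp only at e1 ⊢
    rw [e1]
    linarith
  · rw [hsum]
    obtain ⟨q, u, hq, hqU, hdq, hdu, h0, hFL, hFU⟩ := h.dt_mat_pn hij hi1 t hF hp hpt hup
    have hnn := h.dl_nn hij hi1 B hp hup hq hqU hdq hdu
    have e1 := h.own1_closed hij hi1 B W93 le_rfl h4 c0 c1 hc a0 (q := 2) le_rfl h0
    have hk := h.dt_fl_kc hij hi1 hp hpt hFL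
    have hfu : (FU' i (SS i t)).card ≤ 2 := (card_le_card hFU).trans (uc_card_le H q)
    have hfa : fa i (SS i t) = kc p - (FU' i (SS i t)).card := by
      unfold fa
      rw [hk]
    have hmt : ¬ Disjoint (uc (x 2)) (se x 0) := by
      rw [disjoint_comm]
      exact (h.meet_se hij hi1 B (l := 0) (k := 2) (by omega) le_rfl).2 ⟨by omega, by omega⟩
    have hfm : fm i (SS i t) x 0 = fa i (SS i t) := by
      unfold fm fa
      rw [filter_true_of_mem, filter_true_of_mem]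
      · intro z hz
        rw [h0 z (Or.inr hz)]
        exact hmt
      · intro z hz
        rw [h0 z (Or.inl hz)]
        exact hmt
    have e2 := h.shr_row hij hi1 B W93 h4 (k := 2) le_rfl hup hp
    rw [near01 x 2 hc, h.dl_Ed hij hi1 B a1, if_pos a0, if_pos a2, if_pos (by simp),
      if_pos (by simp), c0, c1] at e2
    have hEt : (((Et x 2 c).filter (fun l => l ≤ 2 + 1 ∧ 2 ≤ l + 2)).card : ℤ) = 1 := by
      rw [h.dl_Et hij hi1 B c0 c1 a0]
      have : ({0} : Finset ℕ).filter (fun l => l ≤ 2 + 1 ∧ 2 ≤ l + 2) = {0} := by decide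
      rw [this, card_singleton]
      norm_num
    rw [hEt] at e2
    obtain ⟨b1, b2, b3, b4, b5⟩ := h.dt_ch_bd hij hi1 hp
    rw [hfm, hn5, if_neg (by norm_num), hfa] at e1
    rw [hfa] at e2
    have hfu' : ((FU' i (SS i t)).card : ℤ) ≤ 2 := by exact_mod_cast hfu
    have hfu0 : (0 : ℤ) ≤ ((FU' i (SS i t)).card : ℤ) := by positivity
    have key := Dt_arith4 b1 b2 hfu0 hfu' b3 b5 hnn
    unfold W93 at e1 e2 ⊢
    dsimp only at e1 e2 ⊢
    rw [e1, e2]
    linarith

end dl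

end Pool.Agent.GaussPoset.Wd
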