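import Pool.Agent.W_448ft_h93.DtC

/-!
MP_448cb3_co, G2, case B, window `j - 1`: the rows with three sites and the pattern [DL], one closed end.
-/

set_option autoImplicit false

namespace Pool.Agent.GaussPoset.Wd

set_option linter.unusedSectionVars false

open Finset Win Win.I2 Win.Rc EK Win.Pn
open Pool.Agent.GaussPoset.Win.SO (F5 mem_F5 N1f N5f CQ envc)

universe u

variable {P : Type u} [Fintype P] [PartialOrder P] [DecidableEq P] {r j i : ℕ}
  {t : Tops P} {lo hi : ℕ → ℕ} {e : ℕ → ℕ → P} {m : ℕ} {x : ℕ → P} {c : ℕ → ℤ} {β : ℤ}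
  {S : Finset P} {p q w : P}

section dl

variable (h : NJ P r j) (hij : i + 1 = j) (hi1 : 1 ≤ i)
include h hij hi1

/-- the environment number of a closed pair is nonnegative -/
lemma NJ.dt_env_nn (t : Tops P) {w : P} (hw : w ∈ CQ i (SS i t)) : 0 ≤ envc i (SS i t) w := by
  obtain ⟨lo, hi, e, C, K⟩ := Pn.nj_cm5 h hij hi1 t
  subst hij
  obtain ⟨b, Bb⟩ := Pn.cl_place K C hw
  rw [Pn.cl_env K C (k := i - 1) (by omega) Bb]
  positivity

variable (B : RowB P j t 2 x c β) (c0 : c 0 = 1) (c1 : c 1 = -1)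
include B c0 c1

/-- CLOSED AT THE DOUBLED END -/
theorem NJ.dl_left (a0 : (uc (x 0)).card = 2) (a2 : (uc (x 2)).card = 1) :
    0 ≤ 2 * own1 W93 i t +
      ∑ p ∈ (PD P i).filter (fun p => (topOf p : Tops P) = t), shr W93 i p := by
  classical
  have a1 := h.dl_mid hij hi1 B
  have hst := h.dl_st hij hi1 B
  rw [a0, a2] at hst
  have h3 : (st i (SS i t)).card ≤ 3 := by omega
  have hc : ∀ k, 2 ≤ k → k < 2 → c k = 0 := fun k h1 h2 => absurd h1 (by omega)
  rcases h.dl_sum hij hi1 B c0 (fun p => shr W93 i p) with ⟨hno, hsum⟩ | ⟨p, -, -, -, h2, -⟩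
  · rw [hsum]
    obtain ⟨hF, f1, f2⟩ := h.dt_no_pn hij hi1 t hno
    have hEd : Ed x 2 = {0} := by
      rw [h.dl_Ed hij hi1 B a1, if_pos a0, if_neg (by omega), union_empty]
    have hEt := h.dl_Et hij hi1 B c0 c1 a0
    have hbal := h.dl_bal hij hi1 B
    rw [hEd, sum_singleton, c0] at hbal
    have htw := h.dl_tws hij hi1 B
    rw [hEt, card_singleton] at htw
    have e3 := Pn.nj_al3 h hij hi1 t hF
    rw [f1, f2, card_empty] at e3
    obtain ⟨e5, e8, e10⟩ := W1.vals_small h hij hi1 t h3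
    rw [hF, card_empty, htw] at e5 e8 e10
    have e6 := Pn.nj_Q6 h hij hi1 t hF
    rw [h.QQ01_none hij hi1 B hc f1 f2, hEd, if_pos (by simp), if_neg (by simp), c0] at e6
    have hs : 0 ≤ ∑ w ∈ CQ i (SS i t), envc i (SS i t) w :=
      sum_nonneg fun w hw => h.dt_env_nn hij hi1 t hw
    have hn1 : (0 : ℤ) ≤ ((N1f i (SS i t)).card : ℤ) := by positivity
    have hn5 : (0 : ℤ) ≤ ((N5f i (SS i t)).card : ℤ) := by positivity
    have g3 : A3 i t = -1 := by
      unfold A3
      rw [e3]
      push_cast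
      linarith
    have g5 : B5 i t = -1 := by
      unfold B5
      rw [e5]
      norm_num
    have g6 : 1 ≤ C6 i t := by
      unfold C6
      rw [e6]
      linarith
    have g8 : C8 i t = 1 := by
      unfold C8
      rw [e8]
      unfold A3 at g3
      rw [g3]
      norm_num
    have g10 : C10 i t = 1 := by
      unfold C10
      rw [e10]
      norm_num
    unfold own1 W93
    dsimp only
    rw [g3, g5, g8, g10]
    linarith
  · omega

/-- closed at the other end: the values without the shares -/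
lemma NJ.dl_rvals (a0 : (uc (x 0)).card = 1) (a2 : (uc (x 2)).card = 2)
    (hF : F5 i (SS i t) = ∅)
    (h0 : ∀ z, z ∈ FL i (SS i t) ∨ z ∈ FU' i (SS i t) → sit i z = uc (x 2)) :
    (1 + fa i (SS i t)) ^ 2 - (1 + fa i (SS i t)) ≤ own1 W93 i t := by
  classical
  have a1 := h.dl_mid hij hi1 B
  have hst := h.dl_st hij hi1 B
  rw [a0, a2] at hst
  have hc : ∀ k, 2 ≤ k → k < 2 → c k = 0 := fun k h1 h2 => absurd h1 (by omega)
  have hEd : Ed x 2 = {1} := by
    rw [h.dl_Ed hij hi1 B a1, if_neg (by omega), if_pos a2, empty_union]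
  have hEt := h.dl_Et' hij hi1 B c0 c1 (by omega)
  have hbal := h.dl_bal hij hi1 B
  rw [hEd, sum_singleton, c1] at hbal
  have htw := h.dl_tws hij hi1 B
  rw [hEt, card_empty] at htw
  have htw' : Tws i (SS i t) = ∅ := by
    rw [← card_eq_zero]
    exact_mod_cast htw
  have e3 := Pn.nj_al3 h hij hi1 t hF
  obtain ⟨-, e5, e6, e8, e10⟩ := W1.vals_open h hij hi1 t htw' hF
  rw [W1.n5f_small h hij hi1 t (by omega), card_empty] at e6 e10
  rw [h.QQ01_pend hij hi1 B hc (q := 2) le_rfl h0, hEd, if_neg (by simp), if_pos (by simp),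
    if_neg (by simp), if_pos (by simp), c1] at e6
  have hn1 : (0 : ℤ) ≤ ((N1f i (SS i t)).card : ℤ) := by positivity
  have g3 : A3 i t = 1 + fa i (SS i t) := by
    unfold A3 fa
    rw [e3]
    linarith
  have g5 : B5 i t = 0 := e5
  have g6 : (1 + fa i (SS i t)) ^ 2 ≤ C6 i t := by
    unfold C6
    rw [e6]
    push_cast
    nlinarith
  have g8 : C8 i t = 0 := e8
  have g10 : C10 i t = 0 := by
    unfold C10
    rw [e10]
    norm_num
  unfold own1 W93
  dsimp only
  rw [g3, g5, g8, g10]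
  linarith

/-- CLOSED AT THE OTHER END, no flip -/
theorem NJ.dl_right (a0 : (uc (x 0)).card = 1) (a2 : (uc (x 2)).card = 2)
    (hF : F5 i (SS i t) = ∅) :
    0 ≤ 2 * own1 W93 i t +
      ∑ p ∈ (PD P i).filter (fun p => (topOf p : Tops P) = t), shr W93 i p := by
  classical
  have H := h.g.H
  have a1 := h.dl_mid hij hi1 B
  have hEd : Ed x 2 = {1} := by
    rw [h.dl_Ed hij hi1 B a1, if_neg (by omega), if_pos a2, empty_union]
  have hEt := h.dl_Et' hij hi1 B c0 c1 (by omega)
  rcases h.dl_sum hij hi1 B c0 (fun p => shr W93 i p) with ⟨hno, hsum⟩ |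
    ⟨p, hp, hpt, hup, -, hsum⟩
  · rw [hsum]
    obtain ⟨-, f1, f2⟩ := h.dt_no_pn hij hi1 t hno
    have e1 := h.dl_rvals hij hi1 B c0 c1 a0 a2 hF (by
      rintro z (hz | hz)
      · rw [f1] at hz
        exact absurd hz (notMem_empty _)
      · rw [f2] at hz
        exact absurd hz (notMem_empty _))
    have hfa : fa i (SS i t) = 0 := by
      unfold fa
      rw [f1, f2, card_empty]
      norm_num
    rw [hfa] at e1
    linarith
  · rw [hsum]
    obtain ⟨q, u, hq, hqU, hdq, hdu, h0, hFL, hFU⟩ := h.dt_mat_pn hij hi1 t hF hp hpt hup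
    have hnn := h.dl_nn hij hi1 B hp hup hq hqU hdq hdu
    have e1 := h.dl_rvals hij hi1 B c0 c1 a0 a2 hF h0
    have hk := h.dt_fl_kc hij hi1 hp hpt hFL
    have hfu : (FU' i (SS i t)).card ≤ 2 := (card_le_card hFU).trans (uc_card_le H q)
    have hfa : fa i (SS i t) = kc p - (FU' i (SS i t)).card := by
      unfold fa
      rw [hk]
    have hsit : sit i p = uc (x 2) := Pn.sit_PDs H hp hup
    have e5 := Pn.nj_net5 h hij hi1 hp (by rw [hpt]; exact hF)
    have e7 := Pn.nj_net7 h hij hi1 hp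
    rw [hpt] at e5 e7
    have hb := h.bal_test hij hi1 B (fun K => ¬ Disjoint K (sit i p))
    have ht := h.tws_test hij hi1 B (fun K => ¬ Disjoint K (sit i p))
    rw [hEd] at hb
    rw [hEt, filter_empty, card_empty] at ht
    have hmt : ¬ Disjoint (se x 1) (sit i p) := by
      rw [hsit]
      exact (h.meet_se hij hi1 B (l := 1) (k := 2) (by omega) le_rfl).2 ⟨by omega, by omega⟩
    rw [filter_true_of_mem (s := ({1} : Finset ℕ)) (by
      intro l hl
      rw [mem_singleton] at hl
      rw [hl]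
      exact hmt), sum_singleton, c1] at hb
    have e5' : Pn.rho i (topOf : P → Tops P) 5 p - A3 i t = -1 - fa i (SS i t) := by
      unfold A3 fa
      rw [e5]
      linarith
    have e7' : Pn.rho i (topOf : P → Tops P) 7 p - B5 i t = 0 := by
      unfold B5
      rw [e7, ht, hF, card_empty]
      norm_num
    obtain ⟨b1, b2, b3, b4, b5⟩ := h.dt_ch_bd hij hi1 hp
    have e2 : shr W93 i p = 12 * zc i (topOf : P → Tops P) p -
        4 * zc i (topOf : P → Tops P) p * (kc p + nn i p - 3) -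
        2 * ∑ z ∈ zs i (topOf : P → Tops P) p, kc z +
        8 * zc i (topOf : P → Tops P) p * (1 + fa i (SS i t)) +
        2 * (zc i (topOf : P → Tops P) p * (zc i (topOf : P → Tops P) p - 1)) := by
      unfold shr
      rw [hpt, e5', e7']
      unfold W93
      dsimp only
      ring
    have hfu' : ((FU' i (SS i t)).card : ℤ) ≤ 2 := by exact_mod_cast hfu
    have hfu0 : (0 : ℤ) ≤ ((FU' i (SS i t)).card : ℤ) := by positivity
    have key := Dt_arith3 b1 b2 hfu0 hfu' b3 b5 hnn
    rw [hfa] at e1 e2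
    rw [e2]
    linarith

end dl

end Pool.Agent.GaussPoset.Wd
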