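import Pool.Agent.W_448ft_h93.DtD

/-!
MP_448cb3_co, G2, case B, window `j - 1`: the rows with three sites and the pattern [DL], one closed end,
a flip; the theorem.
-/

set_option autoImplicit false

namespace Pool.Agent.GaussPoset.Wd

set_option linter.unusedSectionVars false

open Finset Win Win.I2 Win.Rc EK Win.Pn
open Pool.Agent.GaussPoset.Win.SO (F5 mem_F5 N1f N5f CQ envc)
open Pool.Agent.GaussPoset.Win.Pf (Flp)

universe u

variable {P : Type u} [Fintype P] [PartialOrder P] [DecidableEq P] {r j i : ℕ}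
  {t : Tops P} {lo hi : ℕ → ℕ} {e : ℕ → ℕ → P} {m : ℕ} {x : ℕ → P} {c : ℕ → ℤ} {β : ℤ}
  {S : Finset P} {p q w : P}

section dl

variable (h : NJ P r j) (hij : i + 1 = j) (hi1 : 1 ≤ i)
  (B : RowB P j t 2 x c β) (c0 : c 0 = 1) (c1 : c 1 = -1)
include h hij hi1 B

/-- the single near elements of a flip -/
lemma NJ.dl_Sg {y u a s b : P} (F : Flp i (SS i t) p y q u a s b) (hy : y = x 2)
    (a0 : (uc (x 0)).card = 1) : (Pf.Sg i (SS i t) a).card = 0 ∧ (Pf.Sg i (SS i t) b).card = 1 := by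
  classical
  subst hij
  subst hy
  have H := h.g.H
  obtain ⟨lo, hi, e, C⟩ := Cp.comp_exists H t.2 h.g.hr h.g.good
  have hm0 := h.dt_x_mem rfl hi1 B (k := 0) (by omega)
  have l0 := B.row.lev_x 0 (by omega)
  -- `x 0` is over `b`
  obtain ⟨v, hv⟩ := card_eq_one.1 a0
  have hvu : v ∈ uc (x 0) := by rw [hv]; exact mem_singleton_self v
  have lv := lev_uc H hvu
  have hvS : v ∈ st i (SS i t) :=
    mem_st.2 ⟨(Pn.nj_part h rfl t).up hm0 (mem_uc.1 hvu), by omega⟩
  rw [F.st, mem_insert, mem_insert, mem_singleton] at hvS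
  have hvb : v = b := by
    rcases hvS with h1 | h1 | h1
    · exfalso
      refine h.dl_dis rfl hi1 B hvu ?_
      rw [F.cy, h1]
      simp
    · exfalso
      refine h.dl_dis rfl hi1 B hvu ?_
      rw [F.cy, h1]
      simp
    · exact h1
  subst hvb
  have hsg : 1 ≤ (Pf.Sg i (SS i t) v).card :=
    card_pos.2 ⟨x 0, Pf.mem_Sg.2 ⟨hm0, Or.inl ⟨l0, hv⟩⟩⟩
  obtain ⟨hlen, -⟩ := B.orient h (by omega) C
  obtain ⟨-, g1, -, -, -, g2 | g2⟩ := Pf.nj_flip_narrow h rfl hi1 t C F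
  · obtain ⟨-, -, g3, g4, -⟩ := g2
    rw [g3] at hsg ⊢
    rw [g4]
    by_cases h1 : lo (i + 1) = lo i
    · rw [if_pos h1, if_neg (by omega)]
      exact ⟨rfl, rfl⟩
    · rw [if_neg h1] at hsg
      omega
  · obtain ⟨-, -, g3, g4, -⟩ := g2
    rw [g3] at hsg ⊢
    rw [g4]
    by_cases h1 : hi (i + 1) = hi i + 1
    · rw [if_pos h1, if_neg (by omega)]
      exact ⟨rfl, rfl⟩
    · rw [if_neg h1] at hsg
      omega

include c0 c1

/-- CLOSED AT THE OTHER END, a flip -/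
theorem NJ.dl_flip (a0 : (uc (x 0)).card = 1) (a2 : (uc (x 2)).card = 2)
    (hF : F5 i (SS i t) ≠ ∅) :
    -4 ≤ 2 * own1 W93 i t +
      ∑ p ∈ (PD P i).filter (fun p => (topOf p : Tops P) = t), shr W93 i p := by
  classical
  have H := h.g.H
  have a1 := h.dl_mid hij hi1 B
  obtain ⟨⟨p, q⟩, hpq⟩ := nonempty_iff_ne_empty.2 hF
  obtain ⟨y, u, a, s, b, F⟩ := Pf.nj_flp h hij hi1 t hpq
  obtain ⟨f1, f2, f3, f4, -⟩ := mem_F5.1 hpq
  have hp : p ∈ PD P i := f2
  have hpt : (topOf p : Tops P) = t := by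
    have l := (mem_PD.1 hp).1
    have hz : p ∈ SS i t := f1
    rw [h.mem (by omega) t (by omega)] at hz
    exact Subtype.ext (Hul.top_unique (h.nj (by omega)) (topOf p).2 t.2 (le_topOf p) hz)
  obtain ⟨hup, -⟩ := h.dl_pd hij hi1 B c0 hp hpt
  have hy : y = x 2 := by
    have h1 := F.cp
    rw [hup] at h1
    exact (singleton_injective h1).symm
  obtain ⟨sa, sb⟩ := h.dl_Sg hij hi1 B F hy a0
  have hsum : ∑ p ∈ (PD P i).filter (fun p => (topOf p : Tops P) = t), shr W93 i p =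
      shr W93 i p := by
    rcases h.dl_sum hij hi1 B c0 (fun p => shr W93 i p) with ⟨hno, -⟩ |
      ⟨p', hp', hpt', -, -, hsum⟩
    · exact absurd hpt (hno p hp)
    · rw [hsum, Pn.nj_hone h hij hi1 p' hp' p hp (hpt'.trans hpt.symm)]
  rw [hsum]
  -- the values
  have hbal := h.dl_bal hij hi1 B
  have hEd : Ed x 2 = {1} := by
    rw [h.dl_Ed hij hi1 B a1, if_neg (by omega), if_pos a2, empty_union]
  rw [hEd, sum_singleton, c1] at hbal
  have hpC : p ∈ SS i t := f1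
  obtain ⟨psi, hM⟩ := good_mat h.g.H (h.g.good i (by omega))
  have Q := Pf.nj_pso h hij hi1 hM t
  have hFL := Pf.FL_eq Q F
  have hFUe := Pf.FU_eq Q F
  have hkc : ((FL i (SS i t)).card : ℤ) = kc p := by
    rw [hFL, Pf.nj_kc h hij hi1 t hpC (mem_PD.1 hp).1]
  have hfu : (FU' i (SS i t)).card ≤ 2 := by
    have h1 : FU' i (SS i t) ⊆ uc q := by
      intro w hw
      rw [hFUe, mem_FUp] at hw
      rw [mem_uc, ← mem_dc, hw.2]
      exact mem_singleton_self q
    exact (card_le_card h1).trans (uc_card_le H q)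
  have e3 := Pf.nj_flip_al3 h hij hi1 t F
  have g3 : A3 i t = kc p - (FU' i (SS i t)).card := by
    unfold A3
    rw [e3, sa, sb, hkc]
    push_cast
    linarith
  have e1 := Pf.nj_flip_own h hij hi1 W93 t F
  rw [own_eq] at e1
  have e1' : own1 W93 i t = W93.a3 * A3 i t - W93.a5 + W93.a6 * (A3 i t ^ 2 + 4 +
      2 * ((N1f i (SS i t)).card + (FL i (SS i t)).card + (FU' i (SS i t)).card +
          (Pf.Sg i (SS i t) a).card + (Pf.Sg i (SS i t) b).card)) - W93.a8 * A3 i t + W93.a10 := by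
    unfold own2 at e1
    linarith
  have hn1 : (0 : ℤ) ≤ ((N1f i (SS i t)).card : ℤ) := by positivity
  have F' : Flp i (SS i (topOf p)) p y q u a s b := by rw [hpt]; exact F
  have e2 := Pf.nj_flip_shr h hij hi1 W93 F'
  rw [hpt, sa, hkc, g3] at e2
  rw [sa, sb, hkc, g3] at e1'
  obtain ⟨b1, b2, b3, b4, b5⟩ := h.dt_ch_bd hij hi1 hp
  have hfu' : ((FU' i (SS i t)).card : ℤ) ≤ 2 := by exact_mod_cast hfu
  have hfu0 : (0 : ℤ) ≤ ((FU' i (SS i t)).card : ℤ) := by positivity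
  have key := Dt_arithF b1 b2 hfu0 hfu' b3 b5
  unfold W93 at e1' e2 ⊢
  dsimp only at e1' e2 ⊢
  push_cast at e1' e2
  rw [e1', e2]
  linarith

/-- THE WINDOW `j - 1` OF THE PATTERN [DL] WITH THREE SITES, exactly one end closed -/
theorem NJ.dl_V1 (ha : (uc (x 0)).card + (uc (x 2)).card = 3) :
    -5 ≤ 2 * own1 W93 i t +
      ∑ p ∈ (PD P i).filter (fun p => (topOf p : Tops P) = t), shr W93 i p := by
  obtain ⟨-, -, hk⟩ := h.inner hij hi1 B
  rcases hk 0 (by omega) with h0 | h0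
  · have a2 : (uc (x 2)).card = 2 := by omega
    by_cases hF : F5 i (SS i t) = ∅
    · have := h.dl_right hij hi1 B c0 c1 h0 a2 hF
      linarith
    · have := h.dl_flip hij hi1 B c0 c1 h0 a2 hF
      linarith
  · have := h.dl_left hij hi1 B c0 c1 h0 (by omega)
    linarith

/-- THE WINDOW `j - 1` OF THE PATTERN [DL] WITH THREE SITES, at least one end closed -/
theorem NJ.dl_closed (ha : ¬ ((uc (x 0)).card = 1 ∧ (uc (x 2)).card = 1)) :
    -12 ≤ 2 * own1 (⟨-1, 9, 1, 4, 3, -1, 2, 13, 0⟩ : Wt) i t +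
      ∑ p ∈ (PD P i).filter (fun p => (topOf p : Tops P) = t),
        shr (⟨-1, 9, 1, 4, 3, -1, 2, 13, 0⟩ : Wt) i p := by
  obtain ⟨-, -, hk⟩ := h.inner hij hi1 B
  by_cases h4 : (uc (x 0)).card = 2 ∧ (uc (x 2)).card = 2
  · exact h.dl_four hij hi1 B c0 c1 h4.1 h4.2
  · have h5 : (uc (x 0)).card + (uc (x 2)).card = 3 := by
      rcases hk 0 (by omega) with h0 | h0 <;> rcases hk 2 (by omega) with h2 | h2
      · exact absurd ⟨h0, h2⟩ ha
      · omega
      · omega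
      · exact absurd ⟨h0, h2⟩ h4
    have := h.dl_V1 hij hi1 B c0 c1 h5
    unfold W93 at this
    linarith

end dl

end Pool.Agent.GaussPoset.Wd
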