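import Pool.Agent.W_448f4_h70.JA
import Pool.Agent.W_448s7_h27.HangD

/-!
Shifted shapes with a poset hung below the end of the first row and a twin of a minimal element
next to the diagonal.
-/

namespace Pool.Agent.GaussPoset

set_option linter.unusedSectionVars false

open Finset Polynomial

universe u

/-- a copy of a type (without order) -/
structure TwB (Q : Type u) : Type u where
  /-- the element -/
  val : Q
  deriving DecidableEq

/-- the equivalence with the copy -/
def twEquiv (Q : Type u) : Q ≃ TwB Q where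
  toFun := TwB.mk
  invFun := TwB.val
  left_inv _ := rfl
  right_inv _ := rfl

section Sub

variable {Q : Type u} [Fintype Q] [PartialOrder Q] [DecidableEq Q]

instance : Fintype (TwB Q) := Fintype.ofEquiv Q (twEquiv Q)

/-- the order in which `x'` is placed below `x` -/
@[reducible] def twOrder {x x' : Q} (hne : x ≠ x') (hm : ∀ y, ¬ y < x) (hm' : ∀ y, ¬ y < x')
    (hup : ∀ y, x < y ↔ x' < y) : PartialOrder (TwB Q) where
  le y z := y.val ≤ z.val ∨ (y.val = x' ∧ z.val = x)
  le_refl y := Or.inl le_rfl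
  le_trans := by
    rintro ⟨a⟩ ⟨b⟩ ⟨c⟩ h1 h2
    simp only at h1 h2 ⊢
    have hmin' : ∀ {y : Q}, y ≤ x' → y = x' := fun {y} h => by
      by_contra h1
      exact hm' y (lt_of_le_of_ne h h1)
    rcases h1 with h1 | ⟨h1, h1'⟩
    · rcases h2 with h2 | ⟨h2, h2'⟩
      · exact Or.inl (h1.trans h2)
      · subst h2
        exact Or.inr ⟨hmin' h1, h2'⟩
    · subst h1 h1'
      rcases h2 with h2 | ⟨h2, h2'⟩
      · rcases h2.eq_or_lt with h3 | h3
        · exact Or.inr ⟨rfl, h3.symm⟩
        · exact Or.inl ((hup c).1 h3).le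
      · exact (hne h2).elim
  le_antisymm := by
    rintro ⟨a⟩ ⟨b⟩ h1 h2
    simp only at h1 h2 ⊢
    have hmin' : ∀ {y : Q}, y ≤ x' → y = x' := fun {y} h => by
      by_contra h1
      exact hm' y (lt_of_le_of_ne h h1)
    rcases h1 with h1 | ⟨h1, h1'⟩
    · rcases h2 with h2 | ⟨h2, h2'⟩
      · rw [le_antisymm h1 h2]
      · subst h2 h2'
        exact (hne (hmin' h1)).elim
    · rcases h2 with h2 | ⟨h2, h2'⟩
      · subst h1 h1'
        exact (hne (hmin' h2)).elim
      · subst h1 h1'
        exact (hne h2).elim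

/-- order of the window polynomial of a shifted shape with a poset hung below the end `x1` of the
first row and a twin `x'` of the minimal element `x` in the cell `(m, m + 1)` -/
theorem shift_junk_dvd_twin (t1 : Q → Prop) [DecidablePred t1] (co : Q → ℕ × ℕ) (x1 x x' : Q)
    (hx11 : ¬ t1 x1) (hx1 : x1 ≠ x') (hne : x ≠ x') (hx : ¬ t1 x) (hx' : ¬ t1 x')
    (hm : ∀ y, ¬ y < x) (hm' : ∀ y, ¬ y < x') (hup : ∀ y, x < y ↔ x' < y) {m : ℕ}
    (hco : co x = (m, m + 1)) (hlow1 : ∀ y z, y ≤ z → t1 z → t1 y)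
    (hh1 : ∀ y z, t1 y → ¬ t1 z → z ≠ x' → (y ≤ z ↔ x1 ≤ z))
    (hinj : ∀ y z, ¬ t1 y → ¬ t1 z → y ≠ x' → z ≠ x' → co y = co z → y = z)
    (hge : ∀ y, ¬ t1 y → y ≠ x' → (co y).1 ≤ (co y).2)
    (hle : ∀ y z, ¬ t1 y → ¬ t1 z → y ≠ x' → z ≠ x' → (y ≤ z ↔ co z ≤ co y))
    (hdown : ∀ y, ¬ t1 y → y ≠ x' → ∀ c ≤ co y, c.1 ≤ c.2 → ∃ u, ¬ t1 u ∧ u ≠ x' ∧ co u = c)
    (hr1 : (∃ y, t1 y) → (co x1).1 = 0 ∧ ∀ y, ¬ t1 y → y ≠ x' → y ≠ x1 → (co y).2 < (co x1).2)
    {i : ℕ} (hcell : ∃ y, ¬ t1 y ∧ y ≠ x' ∧ co y = (2 * (i / 2), i)) :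
    (1 + Polynomial.X : Polynomial (PowerSeries ℤ)) ^ (i / 2 + 1) ∣ W Q i := by
  classical
  have hmin : ∀ {y : Q}, y ≤ x → y = x := fun {y} h => by
    by_contra h1
    exact hm y (lt_of_le_of_ne h h1)
  have hmin' : ∀ {y : Q}, y ≤ x' → y = x' := fun {y} h => by
    by_contra h1
    exact hm' y (lt_of_le_of_ne h h1)
  -- the cell `(m + 1, m + 1)` is free
  have hfree : ∀ y, ¬ t1 y → y ≠ x' → ¬ ((m + 1, m + 1) : ℕ × ℕ) ≤ co y := by
    intro y hy hy' h
    have h1 : co x ≤ co y := by
      rw [hco]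
      exact (show ((m, m + 1) : ℕ × ℕ) ≤ (m + 1, m + 1) from ⟨Nat.le_succ m, le_rfl⟩).trans h
    have h2 : y = x := hmin ((hle y x hy hx hy' hne).2 h1)
    rw [h2, hco] at h
    have h3 : m + 1 ≤ m := h.1
    omega
  let _ : PartialOrder (TwB Q) := twOrder hne hm hm' hup
  have leB : ∀ y z : TwB Q, y ≤ z ↔ (y.val ≤ z.val ∨ (y.val = x' ∧ z.val = x)) :=
    fun _ _ => Iff.rfl
  have hmon : ((1 + Polynomial.X : Polynomial (PowerSeries ℤ)) ^ (i / 2 + 1)).Monic := by
    apply Polynomial.Monic.pow
    rw [add_comm]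
    exact Polynomial.monic_X_add_C 1
  refine dvd_W_twin hne hup hm hm' (twEquiv Q) (fun y z => Iff.rfl) hmon i ?_ ?_
  · -- the poset with `x'` below `x`
    refine shift_junk_dvd (Q := TwB Q) (fun y => t1 y.val)
      (fun y => if y.val = x' then (m + 1, m + 1) else co y.val) ⟨x1⟩ hx11 ?_ ?_ ?_ ?_ ?_ ?_ ?_ ?_
    · rintro ⟨y⟩ ⟨z⟩ h hz
      rcases (leB _ _).1 h with h | ⟨_, h2⟩
      · exact hlow1 y z h hz
      · simp only at h2 hz
        rw [h2] at hz
        exact (hx hz).elim
    · rintro ⟨y⟩ ⟨z⟩ hy hz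
      simp only at hy hz
      rw [leB, leB]
      simp only
      have hyx : y ≠ x' := fun h => hx' (h ▸ hy)
      by_cases hzx : z = x'
      · subst hzx
        constructor
        · rintro (h | ⟨h, _⟩)
          · exact (hyx (hmin' h)).elim
          · exact (hyx h).elim
        · rintro (h | ⟨h, _⟩)
          · exact (hx1 (hmin' h)).elim
          · exact (hx1 h).elim
      · have := hh1 y z hy hz hzx
        simp only [hyx, hx1, false_and, or_false]
        exact this
    · rintro ⟨y⟩ ⟨z⟩ hy hz h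
      simp only at hy hz h
      by_cases hyx : y = x'
      · by_cases hzx : z = x'
        · rw [hyx, hzx]
        · rw [if_pos hyx, if_neg hzx] at h
          exact (hfree z hz hzx h.le).elim
      · by_cases hzx : z = x'
        · rw [if_neg hyx, if_pos hzx] at h
          exact (hfree y hy hyx h.ge).elim
        · rw [if_neg hyx, if_neg hzx] at h
          rw [hinj y z hy hz hyx hzx h]
    · rintro ⟨y⟩ hy
      simp only at hy ⊢
      by_cases hyx : y = x'
      · rw [if_pos hyx]
      · rw [if_neg hyx]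
        exact hge y hy hyx
    · rintro ⟨y⟩ ⟨z⟩ hy hz
      simp only at hy hz
      rw [leB]
      simp only
      by_cases hyx : y = x'
      · by_cases hzx : z = x'
        · subst hyx
          rw [hzx]
          simp
        · rw [if_pos hyx, if_neg hzx]
          subst hyx
          have h0 : (y ≤ z ∨ y = y ∧ z = x) ↔ x ≤ z := by
            constructor
            · rintro (h | ⟨_, h⟩)
              · exact ((hup z).2 (lt_of_le_of_ne h (Ne.symm hzx))).le
              · exact h ▸ le_rfl
            · intro h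
              rcases h.eq_or_lt with h | h
              · exact Or.inr ⟨rfl, h.symm⟩
              · exact Or.inl ((hup z).1 h).le
          rw [h0, hle x z hx hz hne hzx, hco]
          constructor
          · intro h
            exact h.trans (show ((m, m + 1) : ℕ × ℕ) ≤ (m + 1, m + 1) from ⟨Nat.le_succ m, le_rfl⟩)
          · intro h
            have h1 : (co z).1 ≤ m + 1 := h.1
            have h2 : (co z).2 ≤ m + 1 := h.2
            have h3 := hge z hz hzx
            refine ⟨?_, h2⟩
            change (co z).1 ≤ m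
            by_contra h4
            exact hfree z hz hzx ⟨by change m + 1 ≤ (co z).1; omega,
              by change m + 1 ≤ (co z).2; omega⟩
      · by_cases hzx : z = x'
        · rw [if_neg hyx, if_pos hzx]
          constructor
          · rintro (h | ⟨h, _⟩)
            · rw [hzx] at h
              exact (hyx (hmin' h)).elim
            · exact (hyx h).elim
          · intro h
            exact (hfree y hy hyx h).elim
        · rw [if_neg hyx, if_neg hzx]
          simp only [hyx, false_and, or_false]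
          exact hle y z hy hz hyx hzx
    · rintro ⟨y⟩ hy c hc hcc
      simp only at hy hc
      have key : ∀ u, ¬ t1 u → u ≠ x' → co u = c → ∃ y : TwB Q, ¬ t1 y.val ∧
          (if y.val = x' then (m + 1, m + 1) else co y.val) = c := by
        intro u h1 h2 h3
        exact ⟨⟨u⟩, h1, by simp only; rw [if_neg h2]; exact h3⟩
      by_cases hyx : y = x'
      · rw [if_pos hyx] at hc
        by_cases h1 : c = (m + 1, m + 1)
        · exact ⟨⟨x'⟩, hx', by rw [if_pos rfl, h1]⟩
        · obtain ⟨u, h2, h3, h4⟩ := hdown x hx hne c (by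
            rw [hco]
            have h5 : c.1 ≤ m + 1 := hc.1
            have h6 : c.2 ≤ m + 1 := hc.2
            refine ⟨?_, h6⟩
            change c.1 ≤ m
            by_contra h7
            apply h1
            apply Prod.ext
            · change c.1 = m + 1
              omega
            · change c.2 = m + 1
              omega) hcc
          exact key u h2 h3 h4
      · rw [if_neg hyx] at hc
        obtain ⟨u, h2, h3, h4⟩ := hdown y hy hyx c hc hcc
        exact key u h2 h3 h4
    · rintro ⟨⟨y0⟩, hy0⟩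
      simp only at hy0
      obtain ⟨h1, h2⟩ := hr1 ⟨y0, hy0⟩
      simp only
      rw [if_neg hx1]
      refine ⟨h1, ?_⟩
      rintro ⟨y⟩ hy hyy
      simp only at hy ⊢
      by_cases hyx : y = x'
      · rw [if_pos hyx]
        have hxx1 : x ≠ x1 := by
          intro h
          have h3 : y0 ≤ x := (hh1 y0 x hy0 hx hne).2 (h ▸ le_rfl)
          exact hx (hmin h3 ▸ hy0)
        have := h2 x hx hne hxx1
        rw [hco] at this
        exact this
      · rw [if_neg hyx]
        exact h2 y hy hyx (fun h => hyy (by rw [h]))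
    · obtain ⟨y, h1, h2, h3⟩ := hcell
      exact ⟨⟨y⟩, h1, by simp only; rw [if_neg h2]; exact h3⟩
  · -- the poset without `x'`
    refine shift_junk_dvd (Q := {y : Q // y ≠ x'}) (fun y => t1 y.1) (fun y => co y.1)
      ⟨x1, hx1⟩ hx11 ?_ ?_ ?_ ?_ ?_ ?_ ?_ ?_
    · exact fun y z h hz => hlow1 y.1 z.1 h hz
    · exact fun y z hy hz => hh1 y.1 z.1 hy hz z.2
    · exact fun y z hy hz h => Subtype.ext (hinj y.1 z.1 hy hz y.2 z.2 h)
    · exact fun y hy => hge y.1 hy y.2
    · exact fun y z hy hz => hle y.1 z.1 hy hz y.2 z.2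
    · intro y hy c hc hcc
      obtain ⟨u, h2, h3, h4⟩ := hdown y.1 hy y.2 c hc hcc
      exact ⟨⟨u, h3⟩, h2, h4⟩
    · rintro ⟨y0, hy0⟩
      obtain ⟨h1, h2⟩ := hr1 ⟨y0.1, hy0⟩
      exact ⟨h1, fun y hy hyy => h2 y.1 hy y.2 (fun h => hyy (Subtype.ext h))⟩
    · obtain ⟨y, h1, h2, h3⟩ := hcell
      exact ⟨⟨y, h2⟩, h1, h3⟩

end Sub

end Pool.Agent.GaussPoset
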