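import Pool.Agent.W_448w4_h70.WG
import Pool.Agent.W_448f4_h70.IC

/-!
# The windows `3`, `4` for `j` odd with pendants below special cells and flips as exceptions:
numbers (MP_448cb3_co, S7, `j = 13`)
-/

namespace Pool.Agent.GaussPoset.W4

set_option linter.unusedSectionVars false

open Polynomial Finset Sm

universe u

variable {P : Type u} [Fintype P] [PartialOrder P] [DecidableEq P] {r j K V3 : ℕ}

/-- the numbers of the windows `3`, `4` for `j` odd, with exceptions: the cap `K` at window `4`,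
the least raised cost `V3` at window `3` -/
structure NmO (j K V3 : ℕ) : Prop where
  hj : 12 ≤ j
  od : j % 2 = 1
  k3 : 2 * K < 3 * (j - 3) ^ 2 + 3 * (j - 3)
  kk : K < (j - 3 + 3) ^ 2
  st1 : ∀ L ∈ Finset.Icc (j + 1) (j + 2), ∀ a ∈ Finset.Icc 2 (L / 2), SB j K V3 L a
  st3 : ∀ a ∈ Finset.Icc 2 ((j + 3) / 2), K + 1 < stC 4 (j + 3) a
  re1 : ∀ L ∈ Finset.Icc (j + 1) (j + 2), ∀ a ∈ Finset.Icc 2 (L - 2), RB j K V3 L a
  re3 : ∀ a ∈ Finset.Icc 2 (j + 1), K + 1 < reC 4 (j + 3) a
  fl3 : flC 3 j < V3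
  sp : K < stC 4 (j + 1) 2 + (j - 4)
  fp : K < flC 4 j + (j - 5)
  own : ∀ t ∈ Finset.range 3, ∀ m ∈ Finset.range 3, (m = 0 ∨ t = 2) →
    (j - 3 + t) ^ 2 + (j - 3) * m ≤ K →
      (if m = 0 then (j - 3 + t) ^ 2 else K) + (2 * (j - 3 + t) + 1 + m) < V3
  row : ∀ t ∈ Finset.range 3, (j - 3 + t) ^ 2 + (j - 3 + t) ≤ K + 1 →
    (j - 3 + t + 1) ^ 2 + (j - 3 + t + 1) ≤ V3 ∧
      ((j - 3 + t) ^ 2 + (j - 3 + t) ≤ K → (j - 3 + t + 1) ^ 2 + (j - 3 + t + 1) < V3)

theorem nmO_13 : NmO 13 (10 ^ 2 + 45) (11 ^ 2 + 55) := by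
  constructor <;> decide +kernel

/-- deep cells of the stairs -/
theorem sdeepO (n : NmO j K V3) {t : P} {Nc : Finset P} {co : P → ℕ × ℕ}
    (C : Chart t (fun c => c.1 ≤ c.2) Nc co) {x : P}
    (hx : x ∈ Nc) (h1 : 2 ≤ (co x).1) (hlx : j + 1 ≤ lev x) :
    K + 1 < cst 4 (fun _ => lev x - 4 - 1) x + (lev x - 4 - 1) ∨
    ((K < cst 4 (fun _ => lev x - 4 - 1) x + (lev x - 4 - 1) ∨
        cst 3 (fun _ => lev x - 3 - 1) x + (lev x - 3 - 1) < V3) ∧
      K < cst 4 (fun _ => lev x - 4 - 1) x + 3 * (lev x - 4 - 1) ∧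
      cst 3 (fun _ => lev x - 3 - 1) x + (lev x - 3 - 1) ≤ V3 ∧
      ((co x).1 = (co x).2 ∨ (lev x = j + 1 ∧ (co x).2 ≠ (co x).1 + 2 ∧
        (co x).2 ≠ (co x).1 + 4))) := by
  have hj := n.hj
  have hl := C.lev x hx
  have hm : (co x).1 ≤ (co x).2 := C.mem x hx
  rcases Nat.lt_or_ge (lev x) (j + 3) with hlt | hge
  · have e4 : stC 4 (lev x) (co x).1 = cst 4 (fun _ => lev x - 4 - 1) x + (lev x - 4 - 1) := by
      rw [cst_stair (w := 4) (h := lev x - 4 - 1) C hx rfl (by omega)]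
      rfl
    have e3 : stC 3 (lev x) (co x).1 = cst 3 (fun _ => lev x - 3 - 1) x + (lev x - 3 - 1) := by
      rw [cst_stair (w := 3) (h := lev x - 3 - 1) C hx rfl (by omega)]
      rfl
    have h := n.st1 (lev x) (by rw [Finset.mem_Icc]; omega) (co x).1
      (by rw [Finset.mem_Icc]; omega)
    unfold SB at h
    rw [e4, e3] at h
    rcases h with h | ⟨b1, b2, b3, b4⟩
    · exact Or.inl h
    · refine Or.inr ⟨b1, by omega, b3, ?_⟩
      omega
  · left
    obtain ⟨y, hy, hcy⟩ := C.low x hx (j + 3 - min (co x).2 (j + 1), min (co x).2 (j + 1))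
      ⟨by simp only; omega, by simp only; omega⟩
      (show j + 3 - min (co x).2 (j + 1) ≤ min (co x).2 (j + 1) by omega)
    have hly := C.lev y hy
    have hxy : x ≤ y := by
      rw [C.le_iff x hx y hy, hcy]
      exact ⟨by simp only; omega, by simp only; omega⟩
    have hy1 : (co y).1 = j + 3 - min (co x).2 (j + 1) := by rw [hcy]
    have hy2 : (co y).2 = min (co x).2 (j + 1) := by rw [hcy]
    have hly' : lev y = j + 3 := by omega
    have h2 := cst_up (w := 4) (h := lev x - 4 - 1) (h' := j + 3 - 4 - 1) hxy (by omega)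
    have h3 := cst_stair (w := 4) (h := j + 3 - 4 - 1) C hy hly' (by omega)
    have h4 := n.st3 (co y).1 (by rw [Finset.mem_Icc]; omega)
    unfold stC at h4
    rw [h3] at h2
    omega

/-- deep cells of the rectangles -/
theorem rdeepO (n : NmO j K V3) {t : P} {Nc : Finset P} {co : P → ℕ × ℕ}
    (C : Chart t (fun _ => True) Nc co) {x : P}
    (hx : x ∈ Nc) (h1 : 2 ≤ (co x).1) (h2 : 2 ≤ (co x).2) (hlx : j + 1 ≤ lev x) {h : ℕ}
    (hh : h + min (min (co x).1 (co x).2) 4 = lev x - 4 + 1) :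
    K + 1 < cst 4 (fun _ => h) x + h ∨
    (h = lev x - 4 - 1 ∧ min (co x).1 (co x).2 = 2 ∧ (K < cst 4 (fun _ => h) x + h ∨
        cst 3 (fun _ => lev x - 3 - 1) x + (lev x - 3 - 1) < V3) ∧
      K < cst 4 (fun _ => h) x + 3 * h ∧
      cst 3 (fun _ => lev x - 3 - 1) x + (lev x - 3 - 1) ≤ V3 ∧ lev x = j + 1) := by
  have hj := n.hj
  have hl := C.lev x hx
  have hsub : lev x - (co x).1 = (co x).2 := by omega
  have hhe : h = lev x - 4 + 1 - min (min (co x).1 (lev x - (co x).1)) 4 := by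
    rw [hsub]; omega
  rcases Nat.lt_or_ge (lev x) (j + 3) with hlt | hge
  · have e4 : reC 4 (lev x) (co x).1 = cst 4 (fun _ => h) x + h := by
      rw [cst_rect (w := 4) (h := h) C hx rfl (by omega), hhe]
      rfl
    have h' := n.re1 (lev x) (by rw [Finset.mem_Icc]; omega) (co x).1
      (by rw [Finset.mem_Icc]; omega)
    unfold RB at h'
    rw [e4] at h'
    rcases h' with h' | ⟨b0, b1, b2, b3, b4⟩
    · exact Or.inl h'
    · right
      rw [hsub] at b0
      have e3 : reC 3 (lev x) (co x).1 =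
          cst 3 (fun _ => lev x - 3 - 1) x + (lev x - 3 - 1) := by
        rw [cst_rect (w := 3) (h := lev x - 3 - 1) C hx rfl (by omega)]
        unfold reC
        rw [hsub, b0, show lev x - 3 + 1 - min 2 3 = lev x - 3 - 1 by omega]
      rw [e3] at b1 b3
      have hh' : h = lev x - 4 - 1 := by omega
      exact ⟨hh', b0, b1, by omega, b3, b4⟩
  · left
    obtain ⟨y, hy, hcy⟩ := C.low x hx (j + 3 - min (co x).2 (j + 1), min (co x).2 (j + 1))
      ⟨by simp only; omega, by simp only; omega⟩ trivial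
    have hly := C.lev y hy
    have hxy : x ≤ y := by
      rw [C.le_iff x hx y hy, hcy]
      exact ⟨by simp only; omega, by simp only; omega⟩
    have hy1 : (co y).1 = j + 3 - min (co x).2 (j + 1) := by rw [hcy]
    have hy2 : (co y).2 = min (co x).2 (j + 1) := by rw [hcy]
    have hly' : lev y = j + 3 := by omega
    have h3 := cst_up (w := 4) (h := h)
      (h' := j + 3 - 4 + 1 - min (min (co y).1 (j + 3 - (co y).1)) 4) hxy (by omega)
    have h4 := cst_rect (w := 4)
      (h := j + 3 - 4 + 1 - min (min (co y).1 (j + 3 - (co y).1)) 4) C hy hly' (by omega)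
    have h5 := n.re3 (co y).1 (by rw [Finset.mem_Icc]; omega)
    unfold reC at h5
    rw [h4] at h3
    omega

/-- two more elements -/
lemma cst_add_two {w h h' : ℕ} {z y x : P} (hzx : z < x) (hzy : z < y) (hxy : ¬ x ≤ y)
    (hh : h ≤ h') (hy : h + w ≤ lev y) :
    cst w (fun _ => h) x + 2 * h ≤ cst w (fun _ => h') z := by
  classical
  have e : ∀ (h : ℕ) (z v : P), ez w (fun _ => h) z v =
      if z ≤ v then min h (lev v - w) else 0 := fun _ _ _ => rfl
  have h1 : ∀ v : P, ez w (fun _ => h) x v + ((if v = y then h else 0) +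
      (if v = z then h else 0)) ≤ ez w (fun _ => h') z v := by
    intro v
    rw [e, e]
    have hlz := lev_strictAnti hzy
    by_cases hvz : v = z
    · subst hvz
      rw [if_neg (not_le_of_gt hzx), if_neg hzy.ne, if_pos rfl, if_pos le_rfl, le_min_iff]
      omega
    · by_cases hvy : v = y
      · subst hvy
        rw [if_neg hxy, if_pos rfl, if_neg hvz, if_pos hzy.le, le_min_iff]
        omega
      · rw [if_neg hvz, if_neg hvy]
        by_cases h2 : x ≤ v
        · rw [if_pos h2, if_pos (hzx.le.trans h2)]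
          exact min_le_min hh le_rfl
        · rw [if_neg h2]
          exact Nat.zero_le _
  have h2 := Finset.sum_le_sum (s := univ) fun v (_ : v ∈ univ) => h1 v
  rw [Finset.sum_add_distrib, Finset.sum_add_distrib, Finset.sum_ite_eq', Finset.sum_ite_eq',
    if_pos (mem_univ _), if_pos (mem_univ _)] at h2
  unfold cst
  omega

end Pool.Agent.GaussPoset.W4
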