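import Pool.Agent.W_448ft_h93.OnA

/-!
# The windows `3`, `4`, `j` odd, with exceptions: natural elements (MP_448cb3_co, S7, `j = 13`)
-/

namespace Pool.Agent.GaussPoset.W4

set_option linter.unusedSectionVars false

open Polynomial Finset Sm

universe u

variable {P : Type u} [Fintype P] [PartialOrder P] [DecidableEq P] {r j K3 K V3 : ℕ}
  {N : Tops P → Finset P} {b : Tops P → ℕ} {θ3 θ4 : Tops P → P → ℕ}

/-- the windows `3` and `4`, `j` odd; `V3` is a lower bound for the costs at window `3`, except for
the pendants below special cells, the flips and the special twins -/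
structure Y6 (r j K3 K V3 : ℕ) (N : Tops P → Finset P) (b : Tops P → ℕ)
    (θ3 θ4 : Tops P → P → ℕ) : Prop where
  W : Wk r j 3 K3 N b θ3
  typ : ∀ t, TypeY j t (N t) (θ3 t) (θ4 t)
  m3 : ∀ z ∈ bdR (rA N), PenS j 3 N b θ3 z ∨ PenF j 3 N b θ3 z ∨ V3 ≤ cst 3 (hA N θ3) z
  m3' : ∀ x ∈ twA N, Spc j 3 N b θ3 (twT N x) ∨ V3 ≤ tcst 3 (thA N θ3) (twT N x, x)
  n : NmO j K V3

/-- pendants below the doubles of level `j` of a stair -/
lemma Y6.stair_pend (Y : Y6 r j K3 K V3 N b θ3 θ4) {t : Tops P} {Nc : Finset P}
    {co : P → ℕ × ℕ} (h0 : StairNat j 4 t Nc co)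
    (h1 : N t = natS Nc co)
    (pen : ∀ x z, x ≤ (t : P) → lev x = j → (Win.uc x).card = 2 → z ⋖ x →
        (∀ y, z ⋖ y → y = x) → (co x).2 = (co x).1 + 1 ∨ (co x).2 = (co x).1 + 3)
    {x z : P} (hx : x ∈ Nc) (hlx : lev x = j) (hx2 : 1 ≤ (co x).1) (hlt : (co x).1 < (co x).2)
    (hz : z ∈ bdR (rA N)) (hzx : z ⋖ x) (ho : ∀ y, z ⋖ y → y = x) :
    (co x).2 = (co x).1 + 3 := by
  have H := Y.W.gt.H
  have HN := Y.W.natSys
  have hzR := (mem_bdR.mp hz).1
  have hzu := (mem_rA.mp hzR).1
  have h3 := stair_inner_uc h0.chart H hx hx2 hlt
  rcases pen x z (h0.chart.le_t x hx) hlx h3 hzx ho with h4 | h4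
  · exfalso
    have hzN1 : z ∉ Nc := fun h => mem_unnat.mp hzu t (by rw [h1]; exact mem_natS.mpr (Or.inl h))
    obtain ⟨y, hy, h⟩ := diag_twin h0.chart h0.max H hzN1 hx hzx ho h4
    refine (mem_rA.mp hzR).2 (mem_twA.mpr ⟨hzu, y, ?_, h⟩)
    exact (HN.mem_iff.mp (show y ∈ N t by rw [h1]; exact mem_natS.mpr (Or.inl hy))).1
  · exact h4

/-- the kinds of natural elements of level at least `j`, both windows -/
theorem Y6.cases (Y : Y6 r j K3 K V3 N b θ3 θ4) {x : P} (hx : x ∉ unnat N) (hlx : j ≤ lev x) :
    (Str 3 N θ3 x ∧ Str 4 N θ4 x) ∨ (Row1 j 3 N θ3 x ∧ Row1 j 4 N θ4 x) ∨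
      Dy j K V3 N θ3 θ4 x := by
  have W := Y.W
  have H := W.gt.H
  have HN := W.natSys
  have hxt : x ∈ N (topOf x) := HN.mem_iff.mpr ⟨hx, rfl⟩
  have hj := Y.n.hj
  have hT := Y.typ (topOf x)
  generalize ht : topOf x = t at hxt hT
  rcases hT with ⟨h1, h2, h2', h5⟩ | ⟨c, Nc, co, h0, h0', h1, h2, h2', h4⟩ |
    ⟨Nc, co, h0, h0', h1, h2, h2', h5'⟩
  · left
    have htw : ∀ z ∈ unnat N, ¬ ∀ y, x < y ↔ z < y := by
      intro z hz h
      have h7 : z ∉ onlyB t := by
        rw [← h1]
        exact mem_unnat.mp hz t
      rw [mem_onlyB] at h7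
      push Not at h7
      obtain ⟨s, hs1, hs2, hs3⟩ := h7
      have h7 := W.lt_lev hz
      have h8 : z < s := lt_of_le_of_ne hs2 (by rintro rfl; omega)
      exact hs3 (HN.top_eq hxt hs1 ((h s).mpr h8).le)
    exact ⟨⟨by rw [ht, h2], htw⟩, ⟨by rw [ht, h2'], htw⟩⟩
  · have e1 := h0.b_two
    have e2 := h0.b_le
    have hxN' : x ∈ natR Nc co := by rw [← h1]; exact hxt
    by_cases hJ : x ∈ junk (fun _ => True) Nc co ∨ x ∈ junk (fun _ => True) Nc (swp co)
    · left
      have htw : ∀ z ∈ unnat N, ¬ ∀ y, x < y ↔ z < y := by
        intro z hz h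
        refine mem_unnat.mp hz t ?_
        rw [h1, mem_natR]
        rcases hJ with h' | h'
        · exact Or.inr (Or.inl (junk_twin h' h))
        · exact Or.inr (Or.inr (junk_twin h' h))
      refine ⟨⟨?_, htw⟩, ⟨?_, htw⟩⟩
      · rw [ht, h2]
        unfold thR
        rw [if_pos hJ]
      · rw [ht, h2']
        unfold thR
        rw [if_pos hJ]
    · have hxN : x ∈ Nc := by
        rw [mem_natR] at hxN'
        rcases hxN' with h | h | h
        · exact h
        · exact absurd (Or.inl h) hJ
        · exact absurd (Or.inr h) hJ
      have hl := h0.chart.lev x hxN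
      have hth := rect_th4 h0 hxN hJ (by omega)
      have hth3 := rect_th7 h0' le_rfl hxN hJ (by omega)
      -- thresholds above `x`
      have hmono : 1 ≤ (co x).1 → 1 ≤ (co x).2 → ∀ y, x < y →
          θ4 (topOf y) y ≤ θ4 t x + 1 ∧ θ3 (topOf y) y ≤ θ3 t x + 1 := by
        intro g1 g2 y hxy
        have hy := h0.chart.up x hxN y hxy.le
        have hyt : topOf y = t := by
          have := (W.up hx hxy.le).2
          rw [this, ht]
        have hy1 := not_junk_above h0.chart hxN g1 hxy.le
        have hy2 := not_junk_above h0.chart.swap hxN g2 hxy.le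
        have hle := (h0.chart.le_iff x hxN y hy).mp hxy.le
        have hle1 : (co y).1 ≤ (co x).1 := hle.1
        have hle2 : (co y).2 ≤ (co x).2 := hle.2
        rw [hyt, h2, h2']
        unfold thR
        rw [if_neg (by rintro (h | h); exacts [hy1 h, hy2 h]), if_neg hJ,
          if_neg (by rintro (h | h); exacts [hy1 h, hy2 h]), if_neg hJ]
        omega
      by_cases h7 : (co x).1 = 0 ∨ (co x).2 = 0
      · left
        have htw : ∀ z ∈ unnat N, ¬ ∀ y, x < y ↔ z < y := by
          intro z hz h
          rcases h7 with h7 | h7
          · obtain ⟨u, hu, hcu⟩ := h0.chart.low x hxN (0, (co x).2 - 1)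
              ⟨Nat.zero_le _, Nat.sub_le _ _⟩ trivial
            refine straight_twin H h0 h1 hxN hu ?_ ?_ ?_ hz h
            · rw [hcu]
              exact Or.inr ⟨by simp only; omega, by simp only; omega⟩
            · intro y hy hp
              rw [hcu]
              rcases hp with hp | hp
              · omega
              · exact Prod.ext (by simp only; omega) (by simp only; omega)
            · rw [hcu]
              exact Or.inl rfl
          · obtain ⟨u, hu, hcu⟩ := h0.chart.low x hxN ((co x).1 - 1, 0)
              ⟨Nat.sub_le _ _, Nat.zero_le _⟩ trivial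
            refine straight_twin H h0 h1 hxN hu ?_ ?_ ?_ hz h
            · rw [hcu]
              exact Or.inl ⟨by simp only; omega, by simp only; omega⟩
            · intro y hy hp
              rw [hcu]
              rcases hp with hp | hp
              · exact Prod.ext (by simp only; omega) (by simp only; omega)
              · omega
            · rw [hcu]
              exact Or.inr rfl
        refine ⟨⟨?_, htw⟩, ⟨?_, htw⟩⟩
        · rw [ht, h2]
          omega
        · rw [ht, h2']
          omega
      · by_cases h8 : (co x).1 = 1 ∨ (co x).2 = 1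
        · right; left
          have hd := chart_inner_uc h0.chart H hxN (by omega) (by omega)
          have hno : lev x = j → ∀ z, z ⋖ x → ¬ ∀ y, z ⋖ y → y = x := fun hlx z hz =>
            h4 x z (h0.chart.le_t x hxN) hlx hd hz
          have hnab : ∀ k, 3 ≤ k → k < lev x → nab k x = 2 := by
            intro k hk hkx
            have := rect_nab h0.chart hxN (k := k) (by omega)
            omega
          refine ⟨⟨by omega, hd, hno, by rw [ht, h2]; omega, hnab, ?_⟩,
            ⟨by omega, hd, hno, by rw [ht, h2']; omega, fun k hk => hnab k (by omega), ?_⟩⟩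
          · rw [ht]
            exact fun y hy => (hmono (by omega) (by omega) y hy).2
          · rw [ht]
            exact fun y hy => (hmono (by omega) (by omega) y hy).1
        · right; right
          refine ⟨?_, ?_, ?_, ?_⟩
          · rw [ht, h2']; omega
          · rw [ht, h2']; omega
          · rw [ht]
            exact fun y hy => (hmono (by omega) (by omega) y hy).1
          · intro hlj
            rw [ht, h2']
            rcases rdeepO Y.n h0.chart hxN (by omega) (by omega) hlj
              (h := thR 4 c Nc co x + 1) (by omega) with h | ⟨a1, a2, a3, a4, a5, a6⟩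
            · exact Or.inl h
            · right
              rw [a1] at a3 a4
              refine ⟨by rw [ht, h2']; exact a1, by rw [ht, h2]; omega, a3, a4, a5, Or.inr ?_⟩
              intro q hq z hz hzq ho
              have hqN := h0.chart.up x hxN q hq.1.le
              have hlq := (H.covBy_iff.mp hq).2
              have hcq := (chart_cov h0.chart H hxN hqN).mp hq
              unfold Prd at hcq
              exact h4 q z (h0.chart.le_t q hqN) (by omega)
                (chart_inner_uc h0.chart H hqN (by omega) (by omega)) hzq ho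
  · have hxN' : x ∈ natS Nc co := by rw [← h1]; exact hxt
    by_cases hJ : x ∈ junk (fun c => c.1 ≤ c.2) Nc co
    · left
      have htw : ∀ z ∈ unnat N, ¬ ∀ y, x < y ↔ z < y := by
        intro z hz h
        refine mem_unnat.mp hz t ?_
        rw [h1, mem_natS]
        exact Or.inr (junk_twin hJ h)
      refine ⟨⟨?_, htw⟩, ⟨?_, htw⟩⟩
      · rw [ht, h2]
        unfold thS
        rw [if_pos hJ]
      · rw [ht, h2']
        unfold thSg
        rw [if_pos hJ]
    · have hxN : x ∈ Nc := by
        rw [mem_natS] at hxN'
        rcases hxN' with h | h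
        · exact h
        · exact absurd h hJ
      have hl := h0.chart.lev x hxN
      have hm : (co x).1 ≤ (co x).2 := h0.chart.mem x hxN
      have hth := stair_th4 h0 hxN hJ (by omega)
      have hth3 := stair_th7 h0' le_rfl (by norm_num) hxN hJ (by omega)
      have hmono : 1 ≤ (co x).1 → ∀ y, x < y →
          θ4 (topOf y) y ≤ θ4 t x + 1 ∧ θ3 (topOf y) y ≤ θ3 t x + 1 := by
        intro g1 y hxy
        have hy := h0.chart.up x hxN y hxy.le
        have hyt : topOf y = t := by
          have := (W.up hx hxy.le).2
          rw [this, ht]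
        have hy1 := not_junk_above h0.chart hxN g1 hxy.le
        have hle := (h0.chart.le_iff x hxN y hy).mp hxy.le
        have hle1 : (co y).1 ≤ (co x).1 := hle.1
        have hle2 : (co y).2 ≤ (co x).2 := hle.2
        rw [hyt, h2, h2']
        unfold thS thSg
        rw [if_neg hy1, if_neg hJ, if_neg hy1, if_neg hJ]
        omega
      rcases Nat.lt_or_ge (co x).1 1 with h7 | h7
      · left
        have htw : ∀ z ∈ unnat N, ¬ ∀ y, x < y ↔ z < y := by
          intro z hz h
          obtain ⟨u, hu, hcu⟩ := h0.chart.low x hxN (0, (co x).2 - 1)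
            ⟨Nat.zero_le _, Nat.sub_le _ _⟩ (Nat.zero_le _)
          have g1 : x ⋖ u := by
            rw [chart_cov h0.chart H hxN hu, hcu]
            exact Or.inr ⟨by simp only; omega, by simp only; omega⟩
          have g2 : z ⋖ u := (cov_of_up h).mp g1
          have g3 := stair_pendant H h0 (by omega) h1 hz (x := u)
            (by rw [h1]; exact mem_natS.mpr (Or.inl hu)) g2 (by
            intro y hy
            have hy1 : x ⋖ y := (cov_of_up h).mpr hy
            have hyN := h0.chart.up x hxN y hy1.le
            refine h0.chart.inj y hyN u hu ?_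
            rw [hcu]
            rcases (chart_cov h0.chart H hxN hyN).mp hy1 with hp | hp
            · omega
            · exact Prod.ext (by simp only; omega) (by simp only; omega))
          have g4 := g3.2.2
          rw [hcu] at g4
          simp only at g4
          omega
        refine ⟨⟨?_, htw⟩, ⟨?_, htw⟩⟩
        · rw [ht, h2]
          omega
        · rw [ht, h2']
          omega
      · rcases Nat.lt_or_ge (co x).1 2 with h8 | h8
        · right; left
          have hd := stair_inner_uc h0.chart H hxN h7 (by omega)
          have hno : lev x = j → ∀ z, z ⋖ x → ¬ ∀ y, z ⋖ y → y = x := by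
            intro hlx z hz hon
            have := h5' x z (h0.chart.le_t x hxN) hlx hd hz hon
            omega
          have hnab : ∀ k, 3 ≤ k → k < lev x → nab k x = 2 := by
            intro k hk hkx
            have := stair_nab h0.chart hxN (k := k) (by omega)
            omega
          refine ⟨⟨by omega, hd, hno, by rw [ht, h2]; omega, hnab, ?_⟩,
            ⟨by omega, hd, hno, by rw [ht, h2']; omega, fun k hk => hnab k (by omega), ?_⟩⟩
          · rw [ht]
            exact fun y hy => (hmono h7 y hy).2
          · rw [ht]
            exact fun y hy => (hmono h7 y hy).1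
        · right; right
          have ht4 : thSg 2 4 Nc co x + 1 = lev x - 4 - 1 := by omega
          refine ⟨?_, ?_, ?_, ?_⟩
          · rw [ht, h2']; omega
          · rw [ht, h2']; omega
          · rw [ht]
            exact fun y hy => (hmono h7 y hy).1
          · intro hlj
            rw [ht, h2', ht4]
            rcases sdeepO Y.n h0.chart hxN h8 hlj with h | ⟨a1, a2, a3, a4⟩
            · exact Or.inl h
            · right
              refine ⟨by rw [ht, h2']; exact ht4, by rw [ht, h2]; omega, a1, a2, a3, ?_⟩
              rcases a4 with a4 | ⟨a4, a5, a6⟩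
              · -- a cell of the diagonal
                left
                obtain ⟨p, hp, hcp⟩ := h0.chart.low x hxN ((co x).1 - 1, (co x).2)
                  ⟨Nat.sub_le _ _, le_rfl⟩ (show (co x).1 - 1 ≤ (co x).2 by omega)
                refine ⟨p, fun q hq => ?_⟩
                have hqN := h0.chart.up x hxN q hq.1.le
                have hmq : (co q).1 ≤ (co q).2 := h0.chart.mem q hqN
                have hcq := (chart_cov h0.chart H hxN hqN).mp hq
                refine h0.chart.inj q hqN p hp ?_
                rw [hcp]
                rcases hcq with hcq | hcq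
                · exact Prod.ext (by simp only; omega) (by simp only; omega)
                · omega
              · right
                intro q hq z hz hzq ho
                have hqN := h0.chart.up x hxN q hq.1.le
                have hmq : (co q).1 ≤ (co q).2 := h0.chart.mem q hqN
                have hlq := (H.covBy_iff.mp hq).2
                have hcq := (chart_cov h0.chart H hxN hqN).mp hq
                unfold Prd at hcq
                have hlqN := h0.chart.lev q hqN
                have hod := Y.n.od
                have := Y.stair_pend h0 h1 h5' hqN (by omega) (by omega) (by omega) hz hzq ho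
                omega

end Pool.Agent.GaussPoset.W4
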