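import Pool.Agent.W_448ft_h93.OnD

/-!
# The windows `3`, `4`, `j` odd, with exceptions: straight covers (MP_448cb3_co, S7, `j = 13`)
-/

namespace Pool.Agent.GaussPoset.W4

set_option linter.unusedSectionVars false

open Polynomial Finset Sm

universe u

variable {P : Type u} [Fintype P] [PartialOrder P] [DecidableEq P] {r j K3 K V3 : ℕ}
  {N : Tops P → Finset P} {b : Tops P → ℕ} {θ3 θ4 : Tops P → P → ℕ}

/-- the own pair: two straight covers on the two sides of a rectangle-like component -/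
theorem Y6.own_pair (Y : Y6 r j K3 K V3 N b θ3 θ4) {z : P}
    (hz : z ∈ bdR (rA N)) (hh : hA N θ4 z = lev z - 4) (hh3 : hA N θ3 z = lev z - 3) {t : Tops P}
    {c : ℕ} {Nc : Finset P} {co : P → ℕ × ℕ} (R : RectNat j 3 t c Nc co) {x x' : P}
    (hx : Side (fun _ => True) Nc co x) (hx' : Side (fun _ => True) Nc (swp co) x')
    (hzx : z ⋖ x) (hzx' : z ⋖ x') :
    PenS j 3 N b θ3 z ∨ PenF j 3 N b θ3 z ∨ K < cst 4 (hA N θ4) z := by
  classical
  have H := Y.W.gt.H
  have hg := Y.W.gt.good
  have hj := Y.n.hj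
  have hlz := Y.W.bd_lev hz
  have e1 := (H.covBy_iff.mp hzx).2
  have e2 := (H.covBy_iff.mp hzx').2
  have hsum := fun {k : ℕ} (hk : 1 ≤ k) (hkz : k < lev z) =>
    nab_two_sides H R hx hx' hzx hzx' hk hkz
  have n1 : ∀ k, k ≤ j → nab k x = 1 := fun k hk =>
    hx.nab_one rowT_true R.chart H hg R.strip R.one1 hk (by omega)
  have n2 : ∀ k, k ≤ j → nab k x' = 1 := fun k hk =>
    hx'.nab_one rowT_true R.chart.swap H hg R.strip R.one2 hk (by omega)
  obtain ⟨c0, hc0⟩ : ∃ c0, lev z = 4 + c0 := ⟨lev z - 4, by omega⟩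
  obtain ⟨s, hs⟩ : ∃ s, c0 = j - 3 + s := ⟨c0 - (j - 3), by omega⟩
  have hge2 : ∀ n, n < c0 → 2 ≤ nab (4 + n) z := by
    intro n hn
    rw [hsum (k := 4 + n) (by omega) (by omega)]
    have := one_le_nab (l := 4 + n) (z := x) (by omega)
    have := one_le_nab (l := 4 + n) (z := x') (by omega)
    omega
  have heq1 : ∀ n, n < c0 → (n < j - 3 ∨ c0 ≤ n + 1) → nab (4 + n) z = 2 := by
    intro n hn hor
    rw [hsum (k := 4 + n) (by omega) (by omega)]
    rcases Nat.lt_or_ge (4 + n) (j + 1) with h | h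
    · rw [n1 _ (by omega), n2 _ (by omega)]
    · rw [show 4 + n = lev x by omega, nab_self, show lev x = lev x' by omega, nab_self]
  obtain ⟨m, E, f1, f2, f3, f4, f5⟩ := pair_numbers (y := j - 3) (s := s) (c := c0)
    (fun n => nab (4 + n) z) hs hge2 heq1
  have hv : cst 4 (hA N θ4) z = ful 4 z := cst_eq_ful (by omega)
  have hv3 : cst 3 (hA N θ3) z = ful 3 z := cst_eq_ful (by omega)
  have h34 := ful_three_four hc0
  have h4 : ful 4 z = c0 ^ 2 + E := by
    have h := cst_shift (i := 4) (a := c0) (h := fun _ => c0) (x := z) hc0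
    rw [cst_eq_ful (by omega), Finset.sum_range_succ, ← hc0, nab_self, mul_one,
      Nat.min_self] at h
    rw [h, ← f1]
    congr 1
    refine Finset.sum_congr rfl fun n hn => ?_
    rw [mem_range] at hn
    rw [Nat.min_eq_right (by omega)]
  rw [Finset.sum_range_succ, f2, ← hc0, nab_self] at h34
  rcases Y.m3 z hz with h7 | h7 | h7
  · exact Or.inl h7
  · exact Or.inr (Or.inl h7)
  right; right
  rw [hv3, h34] at h7
  rw [hv]
  by_contra hcon
  have h8 : s < 3 := by
    by_contra h9
    have h10 : (j - 3 + 3) ^ 2 ≤ c0 ^ 2 := Nat.pow_le_pow_left (by omega) 2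
    have := Y.n.kk
    omega
  have h9 : m < 3 := by
    by_contra h9
    have hkk := Y.n.kk
    have h10 := f5 (by omega)
    have h11 : (j - 3 + 2) ^ 2 ≤ c0 ^ 2 := Nat.pow_le_pow_left (by omega) 2
    have h12 : (j - 3) * 3 ≤ (j - 3) * m := Nat.mul_le_mul_left _ (by omega)
    have h13 : (j - 3 + 3) ^ 2 = (j - 3 + 2) ^ 2 + (2 * (j - 3) + 5) := by ring
    omega
  have h10 := Y.n.own s (Finset.mem_range.mpr h8) m (Finset.mem_range.mpr h9) (by
    by_cases hm : m = 0
    · exact Or.inl hm
    · have := f5 hm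
      exact Or.inr (by omega)) (by rw [← hs]; omega)
  rw [← hs] at h10
  by_cases hm : m = 0
  · rw [if_pos hm] at h10
    have := f4 hm
    omega
  · rw [if_neg hm] at h10
    omega

/-- straight covers below one top -/
theorem Y6.own_out (Y : Y6 r j K3 K V3 N b θ3 θ4) {z : P}
    (hz : z ∈ bdR (rA N)) (hh : hA N θ4 z = lev z - 4) (hh3 : hA N θ3 z = lev z - 3)
    (hF : ∀ x, z ⋖ x → x ∉ unnat N ∧ Str 3 N θ3 x) {t : Tops P}
    (ht : ∀ x, z ⋖ x → topOf x = t) :
    PenS j 3 N b θ3 z ∨ PenF j 3 N b θ3 z ∨ K < cst 4 (hA N θ4) z := by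
  classical
  have H := Y.W.gt.H
  have HN := Y.W.natSys
  have hj := Y.n.hj
  have hlz := Y.W.bd_lev hz
  have hzu := (mem_rA.mp (mem_bdR.mp hz).1).1
  obtain ⟨x, hzx, -⟩ := Hul.exists_cov (w := z) (v := (topOf z : P))
    (lt_of_le_of_ne (le_topOf z) (by
      intro h
      have := (topOf z).2
      rw [← h] at this
      omega))
  have hzN := mem_unnat.mp hzu t
  have hin : ∀ x, z ⋖ x → x ∈ N t ∧ θ3 t x = lev x - 3 ∧ lev z = lev x + 1 := by
    intro x hx
    refine ⟨HN.mem_iff.mpr ⟨(hF x hx).1, ht x hx⟩, ?_, (H.covBy_iff.mp hx).2⟩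
    rw [← ht x hx]
    exact (hF x hx).2.th
  have hxx := hin x hzx
  rcases Y.typ t with ⟨g1, g2, g2', g5⟩ | ⟨c, Nc, co, h0, h0', g1, g2, g2', g4⟩ |
    ⟨Nc, co, h0, h0', g1, g2, g2', g5'⟩
  · exfalso
    apply hzN
    rw [g1, mem_onlyB]
    intro s hs hzs
    have hzs' : z < s := lt_of_le_of_ne hzs (by rintro rfl; omega)
    obtain ⟨u, hu, hus⟩ := Hul.exists_cov hzs'
    have h1 := (hin u hu).1
    rw [g1, mem_onlyB] at h1
    exact h1 s hs hus
  · rw [g1] at hzN
    have hside : ∀ x, z ⋖ x → Side (fun _ => True) Nc co x ∨ Side (fun _ => True) Nc (swp co) x := by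
      intro x hx
      obtain ⟨a1, a2, a3⟩ := hin x hx
      rw [g1] at a1
      rw [g2] at a2
      exact rect_str7 h0' le_rfl a1 (by omega) a2
    by_cases honly : ∀ y, z ⋖ y → y = x
    · exfalso
      obtain ⟨a1, a2, a3, a4, a5⟩ := rect_pendant H h0' g1 hzu hxx.1 hzx honly
      rcases hside x hzx with h | h
      · rcases h with h | h
        · exact a2 h
        · have := h.2
          omega
      · rcases h with h | h
        · exact a3 h
        · have := h.2
          rw [swp_fst] at this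
          omega
    · push Not at honly
      obtain ⟨x', hzx', hne'⟩ := honly
      have hne : x ≠ x' := Ne.symm hne'
      have hxx' := hin x' hzx'
      have huni := uc_two_of H hzx hzx' hne
      rcases hside x hzx with h | h
      · rcases hside x' hzx' with h' | h'
        · exact absurd (mem_natR.mpr (Or.inr (Or.inl
            (junk_of_sides rowT_true h0.chart h0.one1 h h' hne (by omega) huni hzx)))) hzN
        · exact Y.own_pair hz hh hh3 h0' h h' hzx hzx'
      · rcases hside x' hzx' with h' | h'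
        · exact Y.own_pair hz hh hh3 h0' h' h hzx' hzx
        · exact absurd (mem_natR.mpr (Or.inr (Or.inr
            (junk_of_sides rowT_true h0.chart.swap h0.one2 h h' hne (by omega) huni hzx)))) hzN
  · exfalso
    rw [g1] at hzN
    have hside : ∀ x, z ⋖ x → Side (fun c => c.1 ≤ c.2) Nc co x := by
      intro x hx
      obtain ⟨a1, a2, a3⟩ := hin x hx
      rw [g1] at a1
      rw [g2] at a2
      exact stair_str7 h0' le_rfl (by norm_num) a1 (by omega) a2
    by_cases honly : ∀ y, z ⋖ y → y = x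
    · obtain ⟨a1, a2, a3⟩ := stair_pendant H h0' (by omega) g1 hzu hxx.1 hzx honly
      rcases hside x hzx with h | h
      · exact a2 h
      · have := h.2
        omega
    · push Not at honly
      obtain ⟨x', hzx', hne'⟩ := honly
      have hne : x ≠ x' := Ne.symm hne'
      have hxx' := hin x' hzx'
      have huni := uc_two_of H hzx hzx' hne
      exact hzN (mem_natS.mpr (Or.inr (junk_of_sides rowT_shift h0.chart (h0'.one1 (by norm_num))
        (hside x hzx) (hside x' hzx') hne (by omega) huni hzx)))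

end Pool.Agent.GaussPoset.W4
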