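import Pool.Agent.W_448ft_h93.OnE
import Pool.Agent.W_448w4_h70.WH

/-!
# The windows `3`, `4`, `j` odd, with exceptions: own noise (MP_448cb3_co, S7, `j = 13`)
-/

namespace Pool.Agent.GaussPoset.W4

set_option linter.unusedSectionVars false

open Polynomial Finset Sm

universe u

variable {P : Type u} [Fintype P] [PartialOrder P] [DecidableEq P] {r j K3 K V3 : ℕ}
  {N : Tops P → Finset P} {b : Tops P → ℕ} {θ3 θ4 : Tops P → P → ℕ}

/-- elements of level `j + 1` below a deep cell -/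
theorem Y6.deep_j (Y : Y6 r j K3 K V3 N b θ3 θ4)
    {z : P} (hz : z ∈ bdR (rA N)) (hlz : lev z = j + 1) {x : P} (hzx : z ⋖ x)
    (hD : Dy j K V3 N θ3 θ4 x) :
    PenS j 3 N b θ3 z ∨ PenF j 3 N b θ3 z ∨ K < cst 4 (hA N θ4) z := by
  classical
  have W := Y.W
  have H := W.gt.H
  have HN := W.natSys
  have hj := Y.n.hj
  have hod := Y.n.od
  have hzR := (mem_bdR.mp hz).1
  have e1 := (H.covBy_iff.mp hzx).2
  have hlx : lev x = j := by omega
  have hx : x ∉ unnat N := W.low (by omega)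
  have hbs : GaussPoset.bs N x = x := by
    unfold GaussPoset.bs
    rw [if_neg (W.not_tw hx)]
  have hth := hD.th
  have hxt : x ∈ N (topOf x) := HN.mem_iff.mpr ⟨hx, rfl⟩
  have hxle : x ≤ (topOf x : P) := le_topOf x
  -- two covers have one cover each
  have hnear : (Win.uc x).card = 2 → ∀ y, z ⋖ y → y = x := by
    intro h2 y hy
    by_contra hne
    have := (W.near hzR hlz hzx hy (Ne.symm hne)).1
    omega
  generalize htt : topOf x = t at hxt hxle hth
  rcases Y.typ t with ⟨g1, g2, g2', g5⟩ | ⟨c, Nc, co, h0, h0', g1, g2, g2', g4⟩ |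
    ⟨Nc, co, h0, h0', g1, g2, g2', g5'⟩
  · exfalso
    rw [g2'] at hth
    simp only at hth
    omega
  · exfalso
    rw [g1] at hxt
    rw [g2'] at hth
    have hJ : ¬ (x ∈ junk (fun _ => True) Nc co ∨ x ∈ junk (fun _ => True) Nc (swp co)) := by
      intro h
      unfold thR at hth
      rw [if_pos h] at hth
      omega
    have hxN : x ∈ Nc := by
      rw [mem_natR] at hxt
      rcases hxt with h | h | h
      · exact h
      · exact absurd (Or.inl h) hJ
      · exact absurd (Or.inr h) hJ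
    have h2 := rect_th4 h0 hxN hJ (by omega)
    have h3 := chart_inner_uc h0.chart H hxN (by omega) (by omega)
    exact g4 x z hxle hlx h3 hzx (hnear h3)
  · rw [g1] at hxt
    rw [g2'] at hth
    have hJ : x ∉ junk (fun c => c.1 ≤ c.2) Nc co := by
      intro h
      unfold thSg at hth
      rw [if_pos h] at hth
      omega
    have hxN : x ∈ Nc := by
      rw [mem_natS] at hxt
      exact hxt.resolve_right hJ
    have hl := h0.chart.lev x hxN
    have hm : (co x).1 ≤ (co x).2 := h0.chart.mem x hxN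
    have h2 := stair_th4 h0 hxN hJ (by omega)
    have h2' := stair_th7 h0' le_rfl (by norm_num) hxN hJ (by omega)
    have hlt : (co x).1 < (co x).2 := by omega
    -- a double
    have h3 := stair_inner_uc h0.chart H hxN (by omega) hlt
    have ho := hnear h3
    have h4 := Y.stair_pend h0 g1 g5' hxN hlx (by omega) hlt hz hzx ho
    rcases Y.m3 z hz with h10 | h10 | h10
    · exact Or.inl h10
    · exact Or.inr (Or.inl h10)
    exfalso
    obtain ⟨x0, f1, f2, f3⟩ := W.hA_spec hz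
    rw [ho x0 f2, hbs, htt, g2] at f3
    have hlb : hA N θ3 z = j - 3 - 1 := by omega
    have h7 := cst_stair (w := 3) (L := j) (h := j - 3 - 1) h0'.chart hxN hlx (by omega)
    rw [show (co x).1 = (j - 3) / 2 by omega, show j - (j - 3) / 2 = (j + 3) / 2 by omega] at h7
    have h9 := cst_only (i := 3) (h := hA N θ3) H.gradedBelow hzx ho
    rw [show min (hA N θ3 z) (lev z - 3) = hA N θ3 z by rw [hlb]; omega, hlb, h7] at h9
    rw [h9] at h10
    have h11 := Y.n.fl3
    unfold flC at h11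
    omega

/-- **Own noise at window `4`.**  The cheapest boundary elements without the exceptions, if their
cost is at most `K`, are joins with straight covers and the full label. -/
theorem Y6.min_join (Y : Y6 r j K3 K V3 N b θ3 θ4)
    {v : ℕ} (M : MnE j N b θ3 θ4 v) (hv : v ≤ K) {z : P} (hz : z ∈ bdR (rA N))
    (hc : cst 4 (hA N θ4) z = v) :
    PenS j 3 N b θ3 z ∨ PenF j 3 N b θ3 z ∨
    ((∀ x, z ⋖ x → x ∉ unnat N ∧ Str 3 N θ3 x ∧ Str 4 N θ4 x) ∧ hA N θ4 z = lev z - 4 ∧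
      v = ful 4 z ∧ ∃ x x', Cg z x x') := by
  classical
  have W := Y.W
  have H := W.gt.H
  have HN := W.natSys
  have hj := Y.n.hj
  have hlz := W.bd_lev hz
  by_cases hd : ∃ x, x ∉ rA N ∧ z ⋖ x ∧ Dy j K V3 N θ3 θ4 (GaussPoset.bs N x)
  · obtain ⟨x, hx, hzx, hD⟩ := hd
    have e1 := (H.covBy_iff.mp hzx).2
    by_cases hl : j + 1 ≤ lev x
    · rcases Y.deep_cover hz hx hzx hl hD with h | h | h
      · exact Or.inl h
      · exact Or.inr (Or.inl h)
      · omega
    · have hxu : x ∉ unnat N := W.low (by omega)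
      have hbs : GaussPoset.bs N x = x := by
        unfold GaussPoset.bs
        rw [if_neg (W.not_tw hxu)]
      rw [hbs] at hD
      rcases Y.deep_j hz (by omega) hzx hD with h | h | h
      · exact Or.inl h
      · exact Or.inr (Or.inl h)
      · omega
  · push Not at hd
    obtain ⟨hF, hge⟩ := Y.flat M hv hz hc hd
    by_cases hR : ∃ x, z ⋖ x ∧ Row1 j 3 N θ3 x ∧ Row1 j 4 N θ4 x
    · obtain ⟨x, hzx, hR3, hR4⟩ := hR
      rcases Y.row1_out hz hF hge hzx hR3 hR4 with h | h | h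
      · exact Or.inl h
      · exact Or.inr (Or.inl h)
      · omega
    · push Not at hR
      have hS : ∀ x, z ⋖ x → x ∉ unnat N ∧ Str 3 N θ3 x ∧ Str 4 N θ4 x := fun x hx =>
        ⟨(hF x hx).1, (hF x hx).2.resolve_right (fun h => hR x hx h.1 h.2)⟩
      have hh : hA N θ4 z = lev z - 4 := by
        obtain ⟨x0, f1, f2, f3⟩ := Y.hA_spec hz
        obtain ⟨g1, g2⟩ := hS x0 f2
        have hbs : GaussPoset.bs N x0 = x0 := by
          unfold GaussPoset.bs
          rw [if_neg (W.not_tw g1)]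
        rw [hbs, g2.2.th] at f3
        have := (H.covBy_iff.mp f2).2
        omega
      have hh3 : hA N θ3 z = lev z - 3 := by
        obtain ⟨x0, f1, f2, f3⟩ := W.hA_spec hz
        obtain ⟨g1, g2⟩ := hS x0 f2
        have hbs : GaussPoset.bs N x0 = x0 := by
          unfold GaussPoset.bs
          rw [if_neg (W.not_tw g1)]
        rw [hbs, g2.1.th] at f3
        have := (H.covBy_iff.mp f2).2
        omega
      by_cases hT : ∃ x x', z ⋖ x ∧ z ⋖ x' ∧ topOf x ≠ topOf x'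
      · obtain ⟨x, x', h1, h2, h3⟩ := hT
        refine Or.inr (Or.inr ⟨hS, hh, ?_, x, x', ?_⟩)
        · rw [← hc]
          exact cst_eq_ful (by omega)
        · exact Cg.mk' h1 h2
            (mem_onlyB.mpr fun s hs hxs => HN.top_eq (HN.mem_iff.mpr ⟨(hS x h1).1, rfl⟩) hs hxs)
            (mem_onlyB.mpr fun s hs hxs => HN.top_eq (HN.mem_iff.mpr ⟨(hS x' h2).1, rfl⟩) hs hxs)
            h3
      · push Not at hT
        obtain ⟨x, hzx, -⟩ := Hul.exists_cov (w := z) (v := (topOf z : P))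
          (lt_of_le_of_ne (le_topOf z) (by
            intro h
            have := (topOf z).2
            rw [← h] at this
            omega))
        rcases Y.own_out hz hh hh3 (fun x hx => ⟨(hS x hx).1, (hS x hx).2.1⟩)
          (t := topOf x) (fun x' hx' => hT x' x hx' hzx) with h | h | h
        · exact Or.inl h
        · exact Or.inr (Or.inl h)
        · omega

/-- **Own noise at window `4`** with exceptions. -/
theorem Y6.own_noise (Y : Y6 r j K3 K V3 N b θ3 θ4)
    {n : ℕ} (hn : n ≤ K) (hjn : ∀ z x x' : P, Cg z x x' → n ≤ ful 4 z) :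
    (∀ z ∈ bdR (rA N), PenS j 3 N b θ3 z ∨ PenF j 3 N b θ3 z ∨ n ≤ cst 4 (hA N θ4) z) ∧
    (∀ x ∈ twA N, Spc j 3 N b θ3 (twT N x) ∨ n < tcst 4 (thA N θ4) (twT N x, x)) ∧
    (∀ z ∈ bdR (rA N), cst 4 (hA N θ4) z = n → PenS j 3 N b θ3 z ∨ PenF j 3 N b θ3 z ∨
      ((∀ x, z ⋖ x → x ∉ unnat N ∧ Str 3 N θ3 x ∧ Str 4 N θ4 x) ∧ hA N θ4 z = lev z - 4 ∧
      n = ful 4 z ∧ ∃ x x', Cg z x x')) := by
  classical
  have htw : ∀ x ∈ twA N, Spc j 3 N b θ3 (twT N x) ∨ n < tcst 4 (thA N θ4) (twT N x, x) :=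
    fun x hx => (Y.out_tw hx).imp id (fun h => hn.trans_lt h)
  have hbd : ∀ z ∈ bdR (rA N), PenS j 3 N b θ3 z ∨ PenF j 3 N b θ3 z ∨
      n ≤ cst 4 (hA N θ4) z := by
    by_contra hcon
    push Not at hcon
    obtain ⟨z0, g1, g2, g3, g4⟩ := hcon
    let B : Finset P := (bdR (rA N)).filter
      (fun z => ¬ PenS j 3 N b θ3 z ∧ ¬ PenF j 3 N b θ3 z)
    obtain ⟨z1, hz1, hmin⟩ := B.exists_min_image (fun z => cst 4 (hA N θ4) z)
      ⟨z0, mem_filter.mpr ⟨g1, g2, g3⟩⟩
    obtain ⟨a1, a2, a3⟩ := mem_filter.mp hz1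
    have h0 := hmin z0 (mem_filter.mpr ⟨g1, g2, g3⟩)
    have M : MnE j N b θ3 θ4 (cst 4 (hA N θ4) z1) := by
      refine ⟨fun z hz => ?_, fun x hx => ?_⟩
      · by_cases h1 : PenS j 3 N b θ3 z
        · exact Or.inl h1
        · by_cases h2 : PenF j 3 N b θ3 z
          · exact Or.inr (Or.inl h2)
          · exact Or.inr (Or.inr (hmin z (mem_filter.mpr ⟨hz, h1, h2⟩)))
      · refine (htw x hx).imp id (fun h => ?_)
        omega
    rcases Y.min_join M (by omega) a1 rfl with h | h | ⟨-, -, h3, x, x', h4⟩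
    · exact a2 h
    · exact a3 h
    · have := hjn z1 x x' h4
      omega
  exact ⟨hbd, htw, fun z hz hc => Y.min_join ⟨hbd, fun x hx => (htw x hx).imp id (fun h => h.le)⟩
    hn hz hc⟩

end Pool.Agent.GaussPoset.W4

namespace Pool.Agent.GaussPoset.Sm

set_option linter.unusedSectionVars false

open Polynomial Finset W4

universe u

variable {P : Type u} [Fintype P] [PartialOrder P] [DecidableEq P] {r j : ℕ}
  {N : Tops P → Finset P} {θ3 θ4 : Tops P → P → ℕ}

/-- the data of the windows `3`, `4` with exceptions from the least raised cost at window `3` -/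
theorem y6_of {lo hi : Tops P → ℕ → ℕ} {K3 K V3 V : ℕ}
    (S : Sy P j lo hi N θ3 θ4) (W : Wk r j 3 K3 N (fun t => hi t 3 - lo t 3 + 1) θ3)
    (M : MnT j 3 N (fun t => hi t 3 - lo t 3 + 1) θ3 V) (hV : V3 ≤ V) (n : NmO j K V3) :
    Y6 r j K3 K V3 N (fun t => hi t 3 - lo t 3 + 1) θ3 θ4 where
  W := W
  typ := S.typ
  m3 := fun z hz => by
    by_cases h1 : PenS j 3 N (fun t => hi t 3 - lo t 3 + 1) θ3 z
    · exact Or.inl h1
    by_cases h2 : PenF j 3 N (fun t => hi t 3 - lo t 3 + 1) θ3 z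
    · exact Or.inr (Or.inl h2)
    right; right
    have hcc : ¬ CEl j 3 N θ3 z := by
      rintro ⟨a1, a2, f, s, a3, a4, a5, a6, a7⟩
      obtain ⟨Nc, co, C⟩ := W.fold_cell (by norm_num) a1 a2 a3 a4 a5 a7
      have := C.ev
      have := n.od
      omega
    have h3 := M.bd z hz
    rw [cst_const, hT_not h2, hS_not h1, hC_not hcc, ← cst_const] at h3
    exact hV.trans h3
  m3' := fun x hx => by
    by_cases h1 : Spc j 3 N (fun t => hi t 3 - lo t 3 + 1) θ3 (twT N x)
    · exact Or.inl h1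
    · right
      have h2 := M.tw x hx
      unfold tcS at h2
      rw [if_neg h1] at h2
      exact hV.trans h2
  n := n

/-- **own noise at window `4`, `j = 13`** -/
theorem own13 {lo hi : Tops P → ℕ → ℕ} {K3 V n : ℕ}
    (S : Sy P 13 lo hi N θ3 θ4) (W : Wk r 13 3 K3 N (fun t => hi t 3 - lo t 3 + 1) θ3)
    (M : MnT 13 3 N (fun t => hi t 3 - lo t 3 + 1) θ3 V) (hV : 11 ^ 2 + 55 ≤ V)
    (hn : n ≤ 10 ^ 2 + 45) (hjn : ∀ z x x' : P, Cg z x x' → n ≤ ful 4 z) :
    (∀ z ∈ bdR (rA N), PenS 13 3 N (fun t => hi t 3 - lo t 3 + 1) θ3 z ∨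
      PenF 13 3 N (fun t => hi t 3 - lo t 3 + 1) θ3 z ∨ n ≤ cst 4 (hA N θ4) z) ∧
    (∀ x ∈ twA N, Spc 13 3 N (fun t => hi t 3 - lo t 3 + 1) θ3 (twT N x) ∨
      n < tcst 4 (thA N θ4) (twT N x, x)) ∧
    (∀ z ∈ bdR (rA N), cst 4 (hA N θ4) z = n →
      PenS 13 3 N (fun t => hi t 3 - lo t 3 + 1) θ3 z ∨
      PenF 13 3 N (fun t => hi t 3 - lo t 3 + 1) θ3 z ∨
      ((∀ x, z ⋖ x → x ∉ unnat N ∧ Str 3 N θ3 x ∧ Str 4 N θ4 x) ∧ hA N θ4 z = lev z - 4 ∧
      n = ful 4 z ∧ ∃ x x', Cg z x x')) :=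
  (y6_of S W M hV nmO_13).own_noise hn hjn

end Pool.Agent.GaussPoset.Sm
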